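import Pool.Agent.Lib.MP_1d7d98_al.Gaps

/-!
The inclusion of `H` induces a homeomorphism from the Morse boundary of `H` onto its limit set.
-/

namespace Pool.Agent.Lib.MP_1d7d98_al

open Set Filter Topology

section General

variable {X : Type*}

theorem Close.symm' {d : X → X → ℕ} {γ ρ : ℕ → X} (h : Close d γ ρ) : Close d ρ γ := by
  obtain ⟨C, h1, h2⟩ := h
  exact ⟨C, h2, h1⟩

end General

namespace TreeData

variable {G : Type*} [Group G] (D : TreeData G)

theorem close_refl (S : Set G) (γ : ℕ → G) : Close (wordDist S) γ γ :=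
  ⟨0, fun n => ⟨n, by rw [wordDist_self]⟩, fun n => ⟨n, by rw [wordDist_self]⟩⟩

theorem close_trans {G' : Type*} [Group G'] {S : Set G'} (hS : Subgroup.closure S = ⊤)
    {α β γ : ℕ → G'} (h1 : Close (wordDist S) α β) (h2 : Close (wordDist S) β γ) :
    Close (wordDist S) α γ := by
  obtain ⟨C, a1, a2⟩ := h1
  obtain ⟨C', b1, b2⟩ := h2
  refine ⟨C + C', fun n => ?_, fun n => ?_⟩
  · obtain ⟨m, hm⟩ := a1 n
    obtain ⟨k, hk⟩ := b1 m
    exact ⟨k, (wordDist_triangle hS _ (β m) _).trans (by omega)⟩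
  · obtain ⟨m, hm⟩ := b2 n
    obtain ⟨k, hk⟩ := a2 m
    exact ⟨k, (wordDist_triangle hS _ (β m) _).trans (by omega)⟩

theorem toBdry_eq {G' : Type*} [Group G'] {S : Set G'} (hS : Subgroup.closure S = ⊤)
    (γ ρ : MorseRay (wordDist S) (1 : G')) : γ.toBdry = ρ.toBdry ↔ Close (wordDist S) γ.toFun ρ.toFun := by
  have heq : Equivalence (fun γ ρ : MorseRay (wordDist S) (1 : G') =>
      Close (wordDist S) γ.toFun ρ.toFun) :=
    ⟨fun γ => close_refl S γ.toFun, fun h => h.symm', fun h1 h2 => close_trans hS h1 h2⟩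
  constructor
  · intro h
    have := Quot.eqvGen_exact h
    rwa [heq.eqvGen_iff] at this
  · intro h
    exact Quot.sound h

/-- the image of a ray of `H` -/
theorem ray_coe {γ : ℕ → D.H} (hγ : IsRay (wordDist D.T) 1 γ) :
    IsRay D.d 1 (fun n => (γ n : G)) := by
  refine ⟨by simp [hγ.1], fun i j hij => ?_⟩
  have := hγ.2 i j hij
  rwa [D.dist_T] at this

theorem geod_of_ray {S : Set G} {γ : ℕ → G} (hγ : IsRay (wordDist S) 1 γ) (m : ℕ) :
    IsGeod S m γ := fun i j hij _ => hγ.2 i j hij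

theorem morse_coe {N : ℝ → ℝ → ℝ} {γ : ℕ → D.H} (hγ : IsRay (wordDist D.T) 1 γ)
    (hM : IsMorseSet (wordDist D.T) N (range γ)) :
    IsMorseSet D.d (gauge (blockBound N + 1)) (range (fun n => (γ n : G))) :=
  D.morse_ray (geod_of_ray (D.ray_coe hγ)) (D.gap_H hγ hM)

/-- the map on rays -/
noncomputable def incl (γ : MorseRay (wordDist D.T) (1 : D.H)) : MorseRay D.d (1 : G) :=
  ⟨fun n => (γ.toFun n : G), D.ray_coe γ.isRay, by
    obtain ⟨N, hN⟩ := γ.morse
    exact ⟨_, D.morse_coe γ.isRay hN⟩⟩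

theorem close_coe {γ ρ : ℕ → D.H} :
    Close D.d (fun n => (γ n : G)) (fun n => (ρ n : G)) ↔ Close (wordDist D.T) γ ρ := by
  unfold Close
  simp only [D.dist_T]

/-- the map on Morse boundaries -/
noncomputable def f : MorseBdry (wordDist D.T) (1 : D.H) → MorseBdry D.d (1 : G) :=
  Quot.map D.incl (fun _ _ h => D.close_coe.mpr h)

theorem f_toBdry (γ : MorseRay (wordDist D.T) (1 : D.H)) : D.f γ.toBdry = (D.incl γ).toBdry := rfl

theorem exists_rep {G' : Type*} [Group G'] {S : Set G'} (ξ : MorseBdry (wordDist S) (1 : G')) :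
    ∃ γ : MorseRay (wordDist S) (1 : G'), γ.toBdry = ξ := Quot.exists_rep ξ

theorem f_injective : Function.Injective D.f := by
  intro ξ η h
  obtain ⟨γ, rfl⟩ := exists_rep ξ
  obtain ⟨ρ, rfl⟩ := exists_rep η
  rw [f_toBdry, f_toBdry, toBdry_eq D.gen] at h
  rw [toBdry_eq D.T_gen]
  exact D.close_coe.mp h

/-- The conditions describing rays of `G` that follow `H`. -/
def Follows (E : ℕ) (ρ : ℕ → G) : Prop :=
  (∀ t, ρ (t+1) = ρ t * D.c → ρ t ∈ D.H) ∧ ∀ s, ∃ t, s ≤ t ∧ t < s + E ∧ ρ (t+1) = ρ t * D.c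

theorem r_contract (g g' : G) : D.d (D.r g) (D.r g') ≤ D.d g g' := by
  have e : D.d (D.r g) (D.r g') = wordLen D.S (D.r (g⁻¹ * g')) := by
    change wordLen D.S _ = _
    rw [map_mul, map_inv]
  rw [e]
  exact wordLen_map_le (S' := D.S) D.gen D.r (fun s hs => by
    rcases D.r_S s hs with h | h
    · exact Or.inl (Or.inl h)
    · exact Or.inr h) (g⁻¹ * g')

theorem r_ray {E : ℕ} {ρ : ℕ → G} (hρ : IsRay D.d 1 ρ) (hF : D.Follows E ρ) :
    IsRay D.d 1 (fun n => D.r (ρ n)) := by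
  refine ⟨by simp only [hρ.1, map_one], fun i j hij => ?_⟩
  apply le_antisymm
  · rw [← hρ.2 i j hij]; exact D.r_contract _ _
  · obtain ⟨t, h1, _, h3⟩ := hF.2 j
    have hfix : D.r (ρ t) = ρ t := D.mem_H_iff.mp (hF.1 t h3)
    have a1 : D.d 1 (ρ t) = t := by
      have := hρ.2 0 t (Nat.zero_le _); rwa [hρ.1, Nat.sub_zero] at this
    have a2 : D.d 1 (D.r (ρ i)) ≤ i := by
      have := D.r_contract (ρ 0) (ρ i)
      rw [hρ.2 0 i (Nat.zero_le _), hρ.1, map_one] at this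
      simpa using this
    have a3 : D.d (D.r (ρ j)) (ρ t) ≤ t - j := by
      have := D.r_contract (ρ j) (ρ t)
      rw [hρ.2 j t h1, hfix] at this
      exact this
    have b1 := D.tri 1 (D.r (ρ i)) (ρ t)
    have b2 := D.tri (D.r (ρ i)) (D.r (ρ j)) (ρ t)
    change j - i ≤ D.d (D.r (ρ i)) (D.r (ρ j))
    omega

theorem r_follows {E : ℕ} {ρ : ℕ → G} (hF : D.Follows E ρ) (s : ℕ) :
    ∃ t, s ≤ t ∧ t < s + E ∧ D.r (ρ (t+1)) = D.r (ρ t) * D.c := by
  obtain ⟨t, h1, h2, h3⟩ := hF.2 s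
  exact ⟨t, h1, h2, by rw [h3, map_mul, D.r_c]⟩

theorem r_close {E : ℕ} {ρ : ℕ → G} (hρ : IsRay D.d 1 ρ) (hF : D.Follows E ρ) :
    Close D.d ρ (fun n => D.r (ρ n)) := by
  have key : ∀ s, D.d (ρ s) (D.r (ρ s)) ≤ 2 * E := by
    intro s
    obtain ⟨t, h1, h2, h3⟩ := hF.2 s
    have hfix : D.r (ρ t) = ρ t := D.mem_H_iff.mp (hF.1 t h3)
    have a1 : D.d (ρ s) (ρ t) = t - s := hρ.2 s t h1
    have a2 := D.r_contract (ρ s) (ρ t)
    rw [hfix] at a2
    have b1 := D.tri (ρ s) (ρ t) (D.r (ρ s))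
    have b2 := D.d_comm (ρ t) (D.r (ρ s))
    omega
  exact ⟨2 * E, fun n => ⟨n, key n⟩, fun n => ⟨n, by
    have := D.d_comm (ρ n) (D.r (ρ n))
    simp only
    rw [← this]; exact key n⟩⟩

/-- the retracted ray in `H` -/
theorem rH_ray {E : ℕ} {ρ : ℕ → G} (hρ : IsRay D.d 1 ρ) (hF : D.Follows E ρ) :
    IsRay (wordDist D.T) 1 (fun n => D.rH (ρ n)) := by
  have := D.r_ray hρ hF
  refine ⟨by simp only [hρ.1, map_one], fun i j hij => ?_⟩
  rw [D.dist_T]
  exact this.2 i j hij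

theorem morse_H_of {N : ℝ → ℝ → ℝ} {γ : ℕ → D.H}
    (h : IsMorseSet D.d N (range (fun n => (γ n : G)))) :
    IsMorseSet (wordDist D.T) N (range γ) := by
  rintro lam eps hlam heps n q hq ⟨s, hs⟩ ⟨t, ht⟩ i hi
  have hq' : IsQuasiGeod D.d lam eps n (fun i => (q i : G)) := by
    intro i j hij hj
    have := hq i j hij hj
    rwa [D.dist_T] at this
  obtain ⟨_, ⟨k, rfl⟩, hk⟩ := h lam eps hlam heps n _ hq' ⟨s, by rw [← hs]⟩ ⟨t, by rw [← ht]⟩ i hi
  exact ⟨γ k, ⟨k, rfl⟩, by rw [D.dist_T]; exact hk⟩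

theorem rH_morse {E : ℕ} {ρ : ℕ → G} (hρ : IsRay D.d 1 ρ) (hF : D.Follows E ρ) :
    IsMorseSet (wordDist D.T) (gauge E) (range (fun n => D.rH (ρ n))) := by
  apply D.morse_H_of
  exact D.morse_ray (geod_of_ray (D.r_ray hρ hF)) (D.r_follows hF)

/-- the retracted ray, as an element of the space of Morse rays -/
noncomputable def retr {E : ℕ} {ρ : ℕ → G} (hρ : IsRay D.d 1 ρ) (hF : D.Follows E ρ) :
    MRay (wordDist D.T) (1 : D.H) (gauge E) :=
  ⟨fun n => D.rH (ρ n), D.rH_ray hρ hF, D.rH_morse hρ hF⟩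

theorem f_retr {E : ℕ} {ρ : ℕ → G} (hρ : IsRay D.d 1 ρ) (hF : D.Follows E ρ)
    (hM : ∃ N, IsMorseSet D.d N (range ρ)) :
    D.f (D.retr hρ hF).toBdry = MorseRay.toBdry ⟨ρ, hρ, hM⟩ := by
  unfold MRay.toBdry
  rw [f_toBdry, toBdry_eq D.gen]
  exact (D.r_close hρ hF).symm'

/-- Rays of `G` whose class comes from `H` follow `H`. -/
theorem follows_of_mem {N : ℝ → ℝ → ℝ} (ρ : MRay D.d (1 : G) N)
    (h : ρ.toBdry ∈ range D.f) : D.Follows (blockBound N + 1) ρ.toFun := by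
  obtain ⟨ξ, hξ⟩ := h
  obtain ⟨γ, rfl⟩ := exists_rep ξ
  obtain ⟨N', hN'⟩ := γ.morse
  unfold MRay.toBdry at hξ
  rw [f_toBdry, toBdry_eq D.gen] at hξ
  have hγr : IsRay D.d 1 (fun n => (γ.toFun n : G)) := D.ray_coe γ.isRay
  have hgap := D.gap_H γ.isRay hN'
  have hcH : ∀ t, ρ.toFun (t+1) = ρ.toFun t * D.c → ρ.toFun t ∈ D.H := by
    intro t ht
    have := D.share ρ.isRay hγr hξ.symm' ht
    rw [← this.1]
    exact (γ.toFun t).2
  refine ⟨hcH, ?_⟩
  apply D.gap_G ρ.isRay ρ.morse hcH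
  intro s
  obtain ⟨t, h1, _, h3⟩ := hgap s
  refine ⟨t, h1, ?_⟩
  have := D.share hγr ρ.isRay hξ (t := t) h3
  rw [this.1, this.2]
  exact h3

/-- The limit set is the image of the Morse boundary of `H`. -/
theorem range_f : range D.f = limitSet D.S D.H := by
  apply Subset.antisymm
  · rintro _ ⟨ξ, rfl⟩
    obtain ⟨γ, rfl⟩ := exists_rep ξ
    obtain ⟨N, hN⟩ := γ.morse
    have hγr : IsRay D.d 1 (fun n => (γ.toFun n : G)) := D.ray_coe γ.isRay
    have hgap := D.gap_H γ.isRay hN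
    refine ⟨gauge (blockBound N + 1), ⟨_, hγr, D.morse_coe γ.isRay hN⟩, id,
      fun _ k => (γ.toFun k : G), rfl, ?_, ?_⟩
    · intro n
      refine ⟨hγr.1, (γ.toFun n).2, geod_of_ray hγr n, ?_⟩
      exact D.morse_seg (geod_of_ray hγr n) (fun s _ => hgap s)
    · intro k
      filter_upwards [eventually_ge_atTop k] with n hn
      exact ⟨hn, rfl⟩
  · rintro ξ ⟨N, ρ, m, σ, rfl, hσ, hlim⟩
    have hF : D.Follows (blockBound N + 1) ρ.toFun := by
      constructor
      · intro t ht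
        obtain ⟨n, h1, h2, h3⟩ := ((hlim t).and (hlim (t+1))).exists
        have hc : σ n (t+1) = σ n t * D.c := by rw [h3, h1.2]; exact ht
        rw [← h1.2]
        exact D.seg_H (hσ n).2.2.1 (by rw [(hσ n).1]; exact D.H.one_mem) (hσ n).2.1
          (by omega) hc
      · intro s
        have hall : ∀ᶠ n in atTop, ∀ k ∈ Finset.range (s + (blockBound N + 1) + 1),
            k ≤ m n ∧ σ n k = ρ.toFun k :=
          (Finset.eventually_all _).mpr (fun k _ => hlim k)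
        obtain ⟨n, hn⟩ := hall.exists
        have hlen := (hn (s + (blockBound N + 1)) (by simp)).1
        obtain ⟨t, h1, h2, h3⟩ := D.gap_seg (hσ n).2.2.1
          (by rw [(hσ n).1]; exact D.H.one_mem) (hσ n).2.1 (hσ n).2.2.2 hlen
        refine ⟨t, h1, h2, ?_⟩
        rw [← (hn t (by rw [Finset.mem_range]; omega)).2,
          ← (hn (t+1) (by rw [Finset.mem_range]; omega)).2]
        exact h3
    exact ⟨_, D.f_retr ρ.isRay hF ⟨N, ρ.morse⟩⟩

/-! ### Topology -/

theorem continuous_seq {X Y : Type*} [TopologicalSpace X] [DiscreteTopology X] [TopologicalSpace Y]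
    (f : X → Y) : Continuous (fun γ : ℕ → X => fun n => f (γ n)) := by
  apply continuous_pi
  intro n
  exact continuous_of_discreteTopology.comp (continuous_apply n)

theorem continuous_ray_map {X Y : Type*} {d : X → X → ℕ} {x : X} {N : ℝ → ℝ → ℝ}
    {d' : Y → Y → ℕ} {y : Y} {N' : ℝ → ℝ → ℝ} (f : X → Y) (g : MRay d x N → MRay d' y N')
    (h : ∀ γ, (g γ).toFun = fun n => f (γ.toFun n)) :
    @Continuous _ _ (rayTopology d x N) (rayTopology d' y N') g := by
  let _ : TopologicalSpace X := ⊥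
  let _ : TopologicalSpace Y := ⊥
  have _ : DiscreteTopology X := ⟨rfl⟩
  let _ := rayTopology d x N
  apply continuous_induced_rng.mpr
  have e : MRay.toFun ∘ g = (fun γ : ℕ → X => fun n => f (γ n)) ∘ MRay.toFun := funext h
  rw [e]
  exact (continuous_seq f).comp continuous_induced_dom

theorem continuous_ray_map_sub {X Y : Type*} {d : X → X → ℕ} {x : X} {N : ℝ → ℝ → ℝ}
    {d' : Y → Y → ℕ} {y : Y} {N' : ℝ → ℝ → ℝ} (f : X → Y) (Z : Set (MRay d x N))
    (g : Z → MRay d' y N') (h : ∀ γ, (g γ).toFun = fun n => f (γ.1.toFun n)) :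
    @Continuous _ _ (@instTopologicalSpaceSubtype _ _ (rayTopology d x N))
      (rayTopology d' y N') g := by
  let _ : TopologicalSpace X := ⊥
  let _ : TopologicalSpace Y := ⊥
  have _ : DiscreteTopology X := ⟨rfl⟩
  let _ := rayTopology d x N
  apply continuous_induced_rng.mpr
  have e : MRay.toFun ∘ g = (fun γ : ℕ → X => fun n => f (γ n)) ∘ MRay.toFun ∘ Subtype.val :=
    funext h
  rw [e]
  exact (continuous_seq f).comp (continuous_induced_dom.comp continuous_subtype_val)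

theorem continuous_toBdry {X : Type*} (d : X → X → ℕ) (x : X) (N : ℝ → ℝ → ℝ) :
    @Continuous _ _ (rayTopology d x N) _ (MRay.toBdry : MRay d x N → MorseBdry d x) := by
  rw [continuous_iff_coinduced_le]
  exact le_iSup (fun N : ℝ → ℝ → ℝ => TopologicalSpace.coinduced MRay.toBdry (rayTopology d x N)) N

theorem continuous_f : Continuous D.f := by
  rw [continuous_iSup_dom]
  intro N
  rw [continuous_coinduced_dom]
  -- factor through rays of `G`
  set N' := gauge (blockBound N + 1) with hN'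
  let g : MRay (wordDist D.T) (1 : D.H) N → MRay D.d (1 : G) N' :=
    fun γ => ⟨fun n => (γ.toFun n : G), D.ray_coe γ.isRay, D.morse_coe γ.isRay γ.morse⟩
  have hg : @Continuous _ _ (rayTopology (wordDist D.T) (1 : D.H) N)
      (rayTopology D.d (1 : G) N') g :=
    continuous_ray_map (fun h : D.H => (h : G)) g (fun _ => rfl)
  let _ := rayTopology (wordDist D.T) (1 : D.H) N
  let _ := rayTopology D.d (1 : G) N'
  exact (continuous_toBdry D.d (1 : G) N').comp hg

theorem isClosed_follows_aux [TopologicalSpace G] [DiscreteTopology G] (E : ℕ) :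
    IsClosed {ρ : ℕ → G | D.Follows E ρ} := by
  have hc : ∀ t, IsClosed {ρ : ℕ → G | ρ (t+1) = ρ t * D.c} := by
    intro t
    exact IsClosed.preimage (f := fun ρ : ℕ → G => (ρ t, ρ (t+1)))
      ((continuous_apply t).prodMk (continuous_apply (t+1)))
      (isClosed_discrete {x : G × G | x.2 = x.1 * D.c})
  have h1 : IsClosed {ρ : ℕ → G | ∀ t, ρ (t+1) = ρ t * D.c → ρ t ∈ D.H} := by
    rw [Set.ofPred_forall]
    apply isClosed_iInter
    intro t
    exact IsClosed.preimage (f := fun ρ : ℕ → G => (ρ t, ρ (t+1)))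
      ((continuous_apply t).prodMk (continuous_apply (t+1)))
      (isClosed_discrete {x : G × G | x.2 = x.1 * D.c → x.1 ∈ D.H})
  have h2 : IsClosed {ρ : ℕ → G | ∀ s, ∃ t, s ≤ t ∧ t < s + E ∧ ρ (t+1) = ρ t * D.c} := by
    rw [Set.ofPred_forall]
    apply isClosed_iInter
    intro s
    have : {ρ : ℕ → G | ∃ t, s ≤ t ∧ t < s + E ∧ ρ (t+1) = ρ t * D.c} =
        ⋃ t ∈ Set.Ico s (s + E), {ρ : ℕ → G | ρ (t+1) = ρ t * D.c} := by
      ext ρ
      simp only [mem_iUnion, mem_Ico, exists_prop]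
      constructor
      · rintro ⟨t, h1, h2, h3⟩
        exact ⟨t, ⟨h1, h2⟩, h3⟩
      · rintro ⟨t, ⟨h1, h2⟩, h3⟩
        exact ⟨t, h1, h2, h3⟩
    rw [this]
    exact (Set.finite_Ico s (s + E)).isClosed_biUnion (fun t _ => hc t)
  exact h1.inter h2

theorem isClosed_follows (E : ℕ) (N : ℝ → ℝ → ℝ) :
    @IsClosed _ (rayTopology D.d (1 : G) N) {ρ | D.Follows E ρ.toFun} := by
  let _ : TopologicalSpace G := ⊥
  have _ : DiscreteTopology G := ⟨rfl⟩
  exact isClosed_induced_iff.mpr ⟨_, D.isClosed_follows_aux E, rfl⟩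

theorem isClosedMap_f : IsClosedMap D.f := by
  intro C hC
  rw [isClosed_iSup_iff]
  intro N
  rw [isClosed_coinduced]
  set E := blockBound N + 1 with hE
  let _ := rayTopology D.d (1 : G) N
  let _ := rayTopology (wordDist D.T) (1 : D.H) (gauge E)
  set Z : Set (MRay D.d (1 : G) N) := {ρ | D.Follows E ρ.toFun} with hZ
  have hZc : IsClosed Z := D.isClosed_follows E N
  let Φ : Z → MRay (wordDist D.T) (1 : D.H) (gauge E) := fun ρ => D.retr ρ.1.isRay ρ.2
  have hΦ : Continuous Φ := continuous_ray_map_sub D.rH Z Φ (fun _ => rfl)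
  have hC' : IsClosed {γ : MRay (wordDist D.T) (1 : D.H) (gauge E) | γ.toBdry ∈ C} := by
    have := isClosed_iSup_iff.mp hC (gauge E)
    rw [isClosed_coinduced] at this
    exact this
  have hclosed : IsClosed (Subtype.val '' (Φ ⁻¹' {γ | γ.toBdry ∈ C})) :=
    hZc.isClosedMap_subtype_val _ (hC'.preimage hΦ)
  convert! hclosed using 1
  ext ρ
  constructor
  · rintro ⟨ξ, hξC, hξ⟩
    have hF : D.Follows E ρ.toFun := D.follows_of_mem ρ ⟨ξ, hξ⟩
    refine ⟨⟨ρ, hF⟩, ?_, rfl⟩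
    have h1 := D.f_retr ρ.isRay hF ⟨N, ρ.morse⟩
    have h2 : D.f (D.retr ρ.isRay hF).toBdry = D.f ξ := by rw [h1]; exact hξ.symm
    have h3 := D.f_injective h2
    change (D.retr ρ.isRay hF).toBdry ∈ C
    rw [h3]; exact hξC
  · rintro ⟨⟨ρ', hF⟩, hmem, rfl⟩
    exact ⟨_, hmem, D.f_retr ρ'.isRay hF ⟨N, ρ'.morse⟩⟩

theorem inducesHomeo : InducesHomeo D.S D.H D.T := by
  have hemb : Topology.IsClosedEmbedding D.f :=
    Topology.IsClosedEmbedding.of_continuous_injective_isClosedMap D.continuous_f D.f_injective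
      D.isClosedMap_f
  refine ⟨hemb.isEmbedding.toHomeomorph.trans (Homeomorph.setCongr D.range_f), fun γ => ?_⟩
  exact ⟨D.incl γ, rfl, close_refl _ _⟩

end TreeData

end Pool.Agent.Lib.MP_1d7d98_al
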