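import Pool.Agent.Lib.MP_1d7d98_al.Tree

/-!
Commuting conjugates along an infinite part of `H` prevent `H` from being hyperbolically embedded.
-/

namespace Pool.Agent.Lib.MP_1d7d98_al

open Set Filter

section General

variable {G : Type*} [Group G]

/-- admissible steps, or steps inside `H` with labels in a given set `F` -/
def MStep (Y : Set G) (H : Subgroup G) (F : Set G) (g g' : G) : Prop :=
  AdmStep Y H g g' ∨ (g ∈ H ∧ g⁻¹ * g' ∈ F)

/-- connected by `n` steps -/
def Conn (R : G → G → Prop) (n : ℕ) (g g' : G) : Prop :=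
  ∃ p : ℕ → G, p 0 = g ∧ p n = g' ∧ ∀ i < n, R (p i) (p (i+1))

theorem Conn.refl (R : G → G → Prop) (g : G) : Conn R 0 g g :=
  ⟨fun _ => g, rfl, rfl, fun i hi => absurd hi (Nat.not_lt_zero i)⟩

theorem Conn.single {R : G → G → Prop} {g g' : G} (h : R g g') : Conn R 1 g g' := by
  refine ⟨fun i => if i = 0 then g else g', by simp, by simp, fun i hi => ?_⟩
  have : i = 0 := by omega
  subst this
  simpa using h

theorem Conn.trans {R : G → G → Prop} {m n : ℕ} {g g' g'' : G} (h1 : Conn R m g g')
    (h2 : Conn R n g' g'') : Conn R (m + n) g g'' := by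
  obtain ⟨p, p0, pm, hp⟩ := h1
  obtain ⟨q, q0, qn, hq⟩ := h2
  refine ⟨fun i => if i ≤ m then p i else q (i - m), by simp [p0], ?_, ?_⟩
  · by_cases hn : n = 0
    · subst hn
      simp only [add_zero, le_refl, if_true]
      rw [pm, ← qn, q0]
    · simp only [show ¬ (m + n ≤ m) by omega, if_false, Nat.add_sub_cancel_left]
      exact qn
  · intro i hi
    rcases lt_trichotomy i m with h | h | h
    · simp only [h.le, if_true, show i + 1 ≤ m from h]
      exact hp i h
    · subst h
      simp only [le_refl, if_true, show ¬ (i + 1 ≤ i) by omega, if_false,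
        Nat.add_sub_cancel_left]
      rw [pm, ← q0]
      exact hq 0 (by omega)
    · simp only [show ¬ (i ≤ m) by omega, if_false, show ¬ (i + 1 ≤ m) by omega]
      have e : i + 1 - m = (i - m) + 1 := by omega
      rw [e]
      exact hq (i - m) (by omega)

theorem AdmStep.mul_left {Y : Set G} {H : Subgroup G} {u g g' : G} (hu : u ∈ H)
    (h : AdmStep Y H g g') : AdmStep Y H (u * g) (u * g') := by
  unfold AdmStep at *
  have e1 : (u * g)⁻¹ * (u * g') = g⁻¹ * g' := by group
  have e2 : (u * g')⁻¹ * (u * g) = g'⁻¹ * g := by group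
  have e3 : u * g ∈ H ↔ g ∈ H := H.mul_mem_cancel_left hu
  rw [e1, e2, e3]
  exact h

theorem MStep.mul_left {Y : Set G} {H : Subgroup G} {F : Set G} {u g g' : G} (hu : u ∈ H)
    (h : MStep Y H F g g') : MStep Y H F (u * g) (u * g') := by
  rcases h with h | ⟨h1, h2⟩
  · exact Or.inl (h.mul_left hu)
  · right
    have e1 : (u * g)⁻¹ * (u * g') = g⁻¹ * g' := by group
    exact ⟨H.mul_mem hu h1, by rw [e1]; exact h2⟩

theorem conn_word {Y : Set G} {H : Subgroup G} {F : Set G} (w : List G)
    (hw : ∀ s ∈ w, (s ∈ Y ∨ s⁻¹ ∈ Y) ∨ (s ∈ H ∧ s ∈ F)) (g : G) :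
    Conn (MStep Y H F) w.length g (g * w.prod) := by
  induction w generalizing g with
  | nil => simpa using Conn.refl _ g
  | cons s w ih =>
    have h1 : MStep Y H F g (g * s) := by
      rcases hw s (by simp) with h | ⟨h, h'⟩
      · left; left
        rcases h with h | h
        · left; simpa using h
        · right; simpa using h
      · by_cases hg : g ∈ H
        · right; exact ⟨hg, by simpa using h'⟩
        · left; right; exact ⟨hg, by simpa using h⟩
    have h2 := (Conn.single h1).trans (ih (fun t ht => hw t (List.mem_cons_of_mem _ ht)) (g * s))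
    rw [List.prod_cons, List.length_cons, add_comm, ← mul_assoc]
    exact h2

/-- Adding finitely many edges inside `H` keeps balls finite. -/
theorem finite_conn {Y : Set G} {H : Subgroup G} {F : Set G} (hF : F.Finite)
    (hFH : ∀ s ∈ F, s ∈ H) (hfin : ∀ n, (relBall Y H 1 n).Finite) (n : ℕ) :
    {k | k ∈ H ∧ Conn (MStep Y H F) n 1 k}.Finite := by
  induction n using Nat.strong_induction_on with
  | _ n ih =>
    have hU : (⋃ m ∈ Finset.range n, {k | k ∈ H ∧ Conn (MStep Y H F) m 1 k}).Finite := by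
      apply Set.Finite.biUnion (Finset.finite_toSet _)
      intro m hm
      exact ih m (by simpa using hm)
    have hprod : ((fun x : G × G × G => x.1 * x.2.1 * x.2.2) '' ((relBall Y H 1 n) ×ˢ F ×ˢ
        (⋃ m ∈ Finset.range n, {k | k ∈ H ∧ Conn (MStep Y H F) m 1 k}))).Finite :=
      ((hfin n).prod (hF.prod hU)).image _
    apply ((hfin n).union hprod).subset
    rintro k ⟨hk, p, p0, pn, hp⟩
    by_cases hall : ∀ i < n, AdmStep Y H (p i) (p (i+1))
    · left
      exact ⟨hk, n, le_rfl, p, p0, pn, hall⟩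
    · right
      push Not at hall
      classical
      have hex : ∃ i, i < n ∧ ¬ AdmStep Y H (p i) (p (i+1)) := hall
      obtain ⟨h1, h2⟩ := Nat.find_spec hex
      set i := Nat.find hex with hi
      have h3 : p i ∈ H ∧ (p i)⁻¹ * p (i+1) ∈ F := by
        rcases hp i h1 with h | h
        · exact absurd h h2
        · exact h
      have h4 : p (i+1) ∈ H := by
        have := H.mul_mem h3.1 (hFH _ h3.2)
        simpa using this
      refine ⟨(p i, (p i)⁻¹ * p (i+1), (p (i+1))⁻¹ * k), ⟨?_, h3.2, ?_⟩, ?_⟩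
      · refine ⟨h3.1, i, h1.le, p, p0, rfl, ?_⟩
        intro l hl
        by_contra hc
        exact Nat.find_min hex hl ⟨by omega, hc⟩
      · simp only [mem_iUnion, Finset.mem_range, exists_prop]
        refine ⟨n - (i+1), by omega, H.mul_mem (H.inv_mem h4) hk,
          fun l => (p (i+1))⁻¹ * p (i + 1 + l), by simp, ?_, ?_⟩
        · simp only
          rw [Nat.add_sub_cancel' (by omega : i + 1 ≤ n), pn]
        · intro l hl
          exact (hp (i + 1 + l) (by omega)).mul_left (H.inv_mem h4)
      · simp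

end General

namespace TreeData

variable {G : Type*} [Group G] (D : TreeData G)

theorem j_injective : Function.Injective D.j := by
  intro l l' h
  have := congrArg D.φ h
  rwa [D.φ_j, D.φ_j] at this

theorem not_hypEmbedded {a : G} (haH : a ∉ D.H)
    (hcomm : ∀ l, a * (D.j l * a * (D.j l)⁻¹) = (D.j l * a * (D.j l)⁻¹) * a)
    (hnd : ∀ l, a * D.j l * a ∉ D.H) : ¬ HypEmbedded D.H := by
  rintro ⟨Y, hgen, _, hfin⟩
  obtain ⟨w, hw, hwa⟩ := exists_list hgen a
  set F : Set G := {s | s ∈ D.H ∧ (s ∈ w ∨ s⁻¹ ∈ w)} with hF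
  have hFfin : F.Finite := by
    have h1 : {s : G | s ∈ w}.Finite := List.finite_toSet w
    have h2 : {s : G | s⁻¹ ∈ w}.Finite := h1.preimage (inv_injective.injOn)
    apply (h1.union h2).subset
    rintro s ⟨_, h | h⟩
    · exact Or.inl h
    · exact Or.inr h
  have hword : ∀ s ∈ w, (s ∈ Y ∨ s⁻¹ ∈ Y) ∨ (s ∈ D.H ∧ s ∈ F) := by
    intro s hs
    rcases hw s hs with (h | h) | (h | h)
    · exact Or.inl (Or.inl h)
    · exact Or.inr ⟨h, h, Or.inl hs⟩
    · exact Or.inl (Or.inr h)
    · have h' : s ∈ D.H := by simpa using D.H.inv_mem h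
      exact Or.inr ⟨h', h', Or.inl hs⟩
  have hwordinv : ∀ s ∈ (w.map (·⁻¹)).reverse, (s ∈ Y ∨ s⁻¹ ∈ Y) ∨ (s ∈ D.H ∧ s ∈ F) := by
    intro s hs
    rw [List.mem_reverse, List.mem_map] at hs
    obtain ⟨t, ht, rfl⟩ := hs
    rcases hw t ht with (h | h) | (h | h)
    · exact Or.inl (Or.inr (by simpa using h))
    · exact Or.inr ⟨D.H.inv_mem h, D.H.inv_mem h, Or.inr (by simpa using ht)⟩
    · exact Or.inl (Or.inl h)
    · exact Or.inr ⟨h, h, Or.inr (by simpa using ht)⟩
  have cw : ∀ g, Conn (MStep Y D.H F) w.length g (g * a) := by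
    intro g
    have := conn_word w hword g
    rwa [hwa] at this
  have cwi : ∀ g, Conn (MStep Y D.H F) w.length g (g * a⁻¹) := by
    intro g
    have := conn_word _ hwordinv g
    rwa [← List.prod_inv_reverse, hwa, List.length_reverse, List.length_map] at this
  have big : ∀ g h, g ∉ D.H → h ∈ D.H → Conn (MStep Y D.H F) 1 g (g * h) := by
    intro g h hg hh
    apply Conn.single
    left; right
    exact ⟨hg, by simpa using hh⟩
  have hQ := finite_conn hFfin (fun s hs => hs.1) (fun n => hfin 1 D.H.one_mem n)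
    (w.length + 1 + w.length + 1 + w.length + 1 + w.length)
  have hinf : (range D.j).Infinite := Set.infinite_range_of_injective D.j_injective
  apply hinf
  apply hQ.subset
  rintro _ ⟨l, rfl⟩
  refine ⟨D.j_mem_H l, ?_⟩
  set h := D.j l with hh
  have hH : h ∈ D.H := D.j_mem_H l
  have c1 := cw 1
  rw [one_mul] at c1
  have c2 := big a h haH hH
  have c3 := cw (a * h)
  have c4 := big (a * h * a) h⁻¹ (hnd l) (D.H.inv_mem hH)
  have c5 := cwi (a * h * a * h⁻¹)
  have e5 : a * h * a * h⁻¹ * a⁻¹ = h * a * h⁻¹ := by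
    have := hcomm l
    rw [← hh] at this
    calc a * h * a * h⁻¹ * a⁻¹ = (a * (h * a * h⁻¹)) * a⁻¹ := by group
      _ = ((h * a * h⁻¹) * a) * a⁻¹ := by rw [this]
      _ = _ := by group
  rw [e5] at c5
  have hn : h * a * h⁻¹ ∉ D.H := by
    intro hc
    apply haH
    have := D.H.mul_mem (D.H.mul_mem (D.H.inv_mem hH) hc) hH
    convert! this using 1
    group
  have c6 := big (h * a * h⁻¹) h hn hH
  rw [inv_mul_cancel_right] at c6
  have c7 := cwi (h * a)
  rw [mul_inv_cancel_right] at c7
  exact (((((c1.trans c2).trans c3).trans c4).trans c5).trans c6).trans c7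

end TreeData

end Pool.Agent.Lib.MP_1d7d98_al
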