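import Pool.Agent.Lib.MP_1d7d98_al.Boundary
import Pool.Agent.Lib.MP_1d7d98_al.HypEmb

/-!
The concrete group: `G = K ∗ C₂`, where `K` is the group of affine maps of `ℚ` generated by
`t ↦ 2t`, `t ↦ 3t`, `t ↦ t + 1`.
-/

namespace Pool.Agent.Lib.MP_1d7d98_al

open Set Filter

/-- affine maps `t ↦ 2^m 3^n t + b` -/
@[ext] structure Aff where
  b : ℚ
  m : ℤ
  n : ℤ

namespace Aff

/-- the scaling factor -/
def sc (m n : ℤ) : ℚ := 2 ^ m * 3 ^ n

theorem sc_add (m n m' n' : ℤ) : sc (m + m') (n + n') = sc m n * sc m' n' := by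
  unfold sc
  rw [zpow_add₀ (by norm_num), zpow_add₀ (by norm_num)]; ring

theorem sc_zero : sc 0 0 = 1 := by simp [sc]

theorem sc_pos (m n : ℤ) : 0 < sc m n := by unfold sc; positivity

theorem sc_neg_mul (m n : ℤ) : sc (-m) (-n) * sc m n = 1 := by
  rw [← sc_add]; simp [sc_zero]

theorem eq_zero_of_sc {m n : ℤ} (h : sc m n = 1) : m = 0 ∧ n = 0 := by
  unfold sc at h
  have h2 : (2:ℚ) ^ m ≠ 0 := by positivity
  have h3 : (3:ℚ) ^ n ≠ 0 := by positivity
  constructor
  · have := congrArg (padicValRat 2) h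
    rw [padicValRat.mul h2 h3, padicValRat.zpow, padicValRat.zpow, padicValRat.one] at this
    have e1 : padicValRat 2 (2:ℚ) = 1 := by
      have := padicValRat.self (p := 2) (by norm_num); exact_mod_cast this
    have e2 : padicValRat 2 (3:ℚ) = 0 := by
      have : padicValRat 2 ((3:ℕ):ℚ) = (padicValNat 2 3 : ℤ) := padicValRat.of_nat
      rw [padicValNat.eq_zero_of_not_dvd (by norm_num)] at this
      exact_mod_cast this
    rw [e1, e2] at this
    simpa using this
  · have := congrArg (padicValRat 3) h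
    rw [padicValRat.mul h2 h3, padicValRat.zpow, padicValRat.zpow, padicValRat.one] at this
    have e1 : padicValRat 3 (3:ℚ) = 1 := by
      have := padicValRat.self (p := 3) (by norm_num); exact_mod_cast this
    have e2 : padicValRat 3 (2:ℚ) = 0 := by
      have : padicValRat 3 ((2:ℕ):ℚ) = (padicValNat 3 2 : ℤ) := padicValRat.of_nat
      rw [padicValNat.eq_zero_of_not_dvd (by norm_num)] at this
      exact_mod_cast this
    rw [e1, e2] at this
    simpa using this

instance : Mul Aff := ⟨fun x y => ⟨x.b + sc x.m x.n * y.b, x.m + y.m, x.n + y.n⟩⟩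
instance : One Aff := ⟨⟨0, 0, 0⟩⟩
instance : Inv Aff := ⟨fun x => ⟨-(sc (-x.m) (-x.n) * x.b), -x.m, -x.n⟩⟩

theorem mul_def (x y : Aff) : x * y = ⟨x.b + sc x.m x.n * y.b, x.m + y.m, x.n + y.n⟩ := rfl
theorem one_def : (1 : Aff) = ⟨0, 0, 0⟩ := rfl
theorem inv_def (x : Aff) : x⁻¹ = ⟨-(sc (-x.m) (-x.n) * x.b), -x.m, -x.n⟩ := rfl

instance : Group Aff := Group.ofLeftAxioms
  (fun x y z => by
    simp only [mul_def, sc_add]
    ext <;> simp only <;> ring)
  (fun x => by
    simp only [mul_def, one_def, sc_zero]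
    ext <;> simp)
  (fun x => by
    simp only [mul_def, one_def, inv_def]
    ext <;> simp)

/-- inclusion of `ℤ²` -/
def j : Multiplicative (ℤ × ℤ) →* Aff where
  toFun l := ⟨0, (Multiplicative.toAdd l).1, (Multiplicative.toAdd l).2⟩
  map_one' := rfl
  map_mul' l l' := by simp [mul_def]

/-- projection to `ℤ²` -/
def π : Aff →* Multiplicative (ℤ × ℤ) where
  toFun x := Multiplicative.ofAdd (x.m, x.n)
  map_one' := rfl
  map_mul' _ _ := rfl

/-- the translation -/
def a : Aff := ⟨1, 0, 0⟩

/-- generators -/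
def gens : Set Aff := {j (Multiplicative.ofAdd (1, 0)), j (Multiplicative.ofAdd (0, 1)), a}

/-- the group `K` -/
def K : Subgroup Aff := Subgroup.closure gens

theorem j_mem (l : Multiplicative (ℤ × ℤ)) : j l ∈ K := by
  have h1 : l = (Multiplicative.ofAdd ((1:ℤ), (0:ℤ))) ^ (Multiplicative.toAdd l).1 *
      (Multiplicative.ofAdd ((0:ℤ), (1:ℤ))) ^ (Multiplicative.toAdd l).2 := by
    rw [← ofAdd_zsmul, ← ofAdd_zsmul, ← ofAdd_add]
    apply Multiplicative.toAdd.injective
    rw [toAdd_ofAdd]
    ext <;> simp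
  rw [h1, map_mul, map_zpow, map_zpow]
  apply K.mul_mem
  · exact K.zpow_mem (Subgroup.subset_closure (by simp [gens])) _
  · exact K.zpow_mem (Subgroup.subset_closure (by simp [gens])) _

theorem a_mem : a ∈ K := Subgroup.subset_closure (by simp [gens])

/-- inclusion of `ℤ²` in `K` -/
def jK : Multiplicative (ℤ × ℤ) →* K := j.codRestrict K j_mem

/-- projection of `K` to `ℤ²` -/
def πK : K →* Multiplicative (ℤ × ℤ) := π.comp K.subtype

theorem πK_jK (l : Multiplicative (ℤ × ℤ)) : πK (jK l) = l := rfl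

/-- the translation in `K` -/
def aK : K := ⟨a, a_mem⟩

/-- generators of `K` -/
def gensK : Set K := {κ | (κ : Aff) ∈ gens}

theorem gensK_closure : Subgroup.closure gensK = ⊤ := Subgroup.closure_closure_coe_preimage

theorem gensK_finite : gensK.Finite := by
  apply Set.Finite.preimage (Subtype.val_injective.injOn)
  simp [gens]

theorem mem_gensK {κ : K} (h : κ ∈ gensK) :
    κ = jK (Multiplicative.ofAdd (1, 0)) ∨ κ = jK (Multiplicative.ofAdd (0, 1)) ∨ κ = aK := by
  rcases h with h | h | h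
  · left; exact Subtype.ext h
  · right; left; exact Subtype.ext h
  · right; right; exact Subtype.ext h

theorem exists_jK {κ : K} (h : (κ : Aff).b = 0) : ∃ l, κ = jK l := by
  refine ⟨πK κ, ?_⟩
  apply Subtype.ext
  ext
  · exact h
  · rfl
  · rfl

theorem malK {κ : K} (hκ : κ ∉ jK.range) {l : Multiplicative (ℤ × ℤ)}
    (h : κ⁻¹ * jK l * κ ∈ jK.range) : l = 1 := by
  obtain ⟨l', hl'⟩ := h
  have h1 : jK l * κ = κ * jK l' := by rw [hl']; group
  have h2 : ((jK l * κ : K) : Aff).b = ((κ * jK l' : K) : Aff).b := by rw [h1]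
  have hb : (κ : Aff).b ≠ 0 := by
    intro hc
    obtain ⟨l'', hl''⟩ := exists_jK hc
    exact hκ ⟨l'', hl''.symm⟩
  have h3 : sc (Multiplicative.toAdd l).1 (Multiplicative.toAdd l).2 * (κ : Aff).b =
      (κ : Aff).b := by
    have e1 : ((jK l * κ : K) : Aff).b =
        0 + sc (Multiplicative.toAdd l).1 (Multiplicative.toAdd l).2 * (κ : Aff).b := rfl
    have e2 : ((κ * jK l' : K) : Aff).b = (κ : Aff).b + sc (κ : Aff).m (κ : Aff).n * 0 := rfl
    rw [e1, e2] at h2
    linarith
  have h4 : sc (Multiplicative.toAdd l).1 (Multiplicative.toAdd l).2 = 1 := by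
    have := mul_right_cancel₀ hb (h3.trans (one_mul _).symm)
    exact this
  obtain ⟨h5, h6⟩ := eq_zero_of_sc h4
  apply Multiplicative.toAdd.injective
  exact Prod.ext h5 h6

end Aff

open Aff

/-- homomorphism from `C₂` given by an involution -/
def invHom {M : Type*} [Monoid M] (P : M) (hP : P * P = 1) : Multiplicative (ZMod 2) →* M where
  toFun z := if z = 1 then 1 else P
  map_one' := by simp
  map_mul' := by
    have key : ∀ z : Multiplicative (ZMod 2), z = 1 ∨ z = Multiplicative.ofAdd 1 := by decide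
    intro z w
    have h0 : (Multiplicative.ofAdd (1 : ZMod 2)) ≠ 1 := by decide
    have h1 : (Multiplicative.ofAdd (1 : ZMod 2)) * Multiplicative.ofAdd 1 = 1 := by decide
    rcases key z with rfl | rfl <;> rcases key w with rfl | rfl
    · simp
    · simp [h0]
    · simp [h0]
    · simp only [h1, if_true, h0, if_false]; exact hP.symm

theorem invHom_c {M : Type*} [Monoid M] (P : M) (hP : P * P = 1) :
    invHom P hP (Multiplicative.ofAdd 1) = P := by
  have h0 : (Multiplicative.ofAdd (1 : ZMod 2)) ≠ 1 := by decide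
  simp [invHom, h0]

/-- the group `G = K ∗ C₂` -/
abbrev GG : Type := Monoid.Coprod K (Multiplicative (ZMod 2))

/-- the involution -/
def cc : GG := Monoid.Coprod.inr (Multiplicative.ofAdd 1)

theorem cc_sq : cc * cc = 1 := by
  unfold cc
  rw [← map_mul]
  have h1 : (Multiplicative.ofAdd (1 : ZMod 2)) * Multiplicative.ofAdd 1 = 1 := by decide
  rw [h1, map_one]

theorem c2_cases (z : Multiplicative (ZMod 2)) : z = 1 ∨ z = Multiplicative.ofAdd 1 := by
  revert z; decide

/-- right induction -/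
theorem induction_right {P : GG → Prop} (one : P 1)
    (hK : ∀ g (κ : K), P g → P (g * Monoid.Coprod.inl κ)) (hc : ∀ g, P g → P (g * cc)) (g : GG) :
    P g := by
  have key : ∀ g : GG, P g⁻¹ := by
    intro g
    induction g using Monoid.Coprod.induction_on' with
    | one => simpa using one
    | inl_mul κ x ih =>
      rw [mul_inv_rev, ← map_inv]
      exact hK _ _ ih
    | inr_mul z x ih =>
      rcases c2_cases z with rfl | rfl
      · simpa using ih
      · have : (Monoid.Coprod.inr (Multiplicative.ofAdd 1) * x : GG)⁻¹ = x⁻¹ * cc := by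
          rw [mul_inv_rev]
          congr 1
        rw [this]
        exact hc _ ih
  have := key g⁻¹
  rwa [inv_inv] at this

open Classical in
/-- the permutation for `c` -/
noncomputable def permC (x : GG) : Equiv.Perm (GG × Bool) where
  toFun p := (p.1 * cc, if x = p.1 ∨ x = p.1 * cc then !p.2 else p.2)
  invFun p := (p.1 * cc, if x = p.1 ∨ x = p.1 * cc then !p.2 else p.2)
  left_inv := by
    rintro ⟨g, i⟩
    have e : g * cc * cc = g := by rw [mul_assoc, cc_sq, mul_one]
    by_cases h : x = g ∨ x = g * cc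
    · have h' : x = g * cc ∨ x = g := h.symm
      simp only [e, h, h', if_true, Bool.not_not]
    · have h' : ¬ (x = g * cc ∨ x = g) := fun hc => h hc.symm
      simp only [e, h, h', if_false]
  right_inv := by
    rintro ⟨g, i⟩
    have e : g * cc * cc = g := by rw [mul_assoc, cc_sq, mul_one]
    by_cases h : x = g ∨ x = g * cc
    · have h' : x = g * cc ∨ x = g := h.symm
      simp only [e, h, h', if_true, Bool.not_not]
    · have h' : ¬ (x = g * cc ∨ x = g) := fun hc => h hc.symm
      simp only [e, h, h', if_false]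

theorem permC_sq (x : GG) : permC x * permC x = 1 := by
  ext p
  · exact congrArg Prod.fst ((permC x).left_inv p)
  · exact congrArg Prod.snd ((permC x).left_inv p)

/-- the permutations for `K` -/
def permK : K →* Equiv.Perm (GG × Bool) where
  toFun κ :=
    { toFun := fun p => (p.1 * (Monoid.Coprod.inl κ)⁻¹, p.2)
      invFun := fun p => (p.1 * Monoid.Coprod.inl κ, p.2)
      left_inv := fun p => by simp
      right_inv := fun p => by simp }
  map_one' := by ext p <;> simp
  map_mul' κ κ' := by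
    ext p <;> simp [mul_assoc]

/-- the action detecting the edge at `x` -/
noncomputable def act (x : GG) : GG →* Equiv.Perm (GG × Bool) :=
  Monoid.Coprod.lift permK (invHom (permC x) (permC_sq x))

/-- the side function -/
noncomputable def sd (x g : GG) : Bool := (act x g⁻¹ (1, false)).2

theorem act_fst (x g : GG) : (act x g⁻¹ (1, false)).1 = g := by
  induction g using induction_right with
  | one => simp
  | hK g κ ih =>
    rw [mul_inv_rev, map_mul, Equiv.Perm.mul_apply, ← map_inv]
    have : act x (Monoid.Coprod.inl κ⁻¹) = permK κ⁻¹ := Monoid.Coprod.lift_apply_inl _ _ _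
    rw [this]
    change (act x g⁻¹ (1, false)).1 * (Monoid.Coprod.inl κ⁻¹)⁻¹ = _
    rw [ih, map_inv, inv_inv]
  | hc g ih =>
    rw [mul_inv_rev, map_mul, Equiv.Perm.mul_apply]
    have : act x cc⁻¹ = permC x := by
      rw [inv_eq_of_mul_eq_one_left cc_sq]
      unfold act cc
      rw [Monoid.Coprod.lift_apply_inr, invHom_c]
    rw [this]
    change (act x g⁻¹ (1, false)).1 * cc = _
    rw [ih]

theorem sd_one (x : GG) : sd x 1 = false := by simp [sd]

theorem sd_K (x g : GG) (κ : K) : sd x (g * Monoid.Coprod.inl κ) = sd x g := by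
  unfold sd
  rw [mul_inv_rev, map_mul, Equiv.Perm.mul_apply, ← map_inv]
  have : act x (Monoid.Coprod.inl κ⁻¹) = permK κ⁻¹ := Monoid.Coprod.lift_apply_inl _ _ _
  rw [this]
  rfl

open Classical in
theorem sd_c (x g : GG) : sd x (g * cc) = if x = g ∨ x = g * cc then !(sd x g) else sd x g := by
  unfold sd
  rw [mul_inv_rev, map_mul, Equiv.Perm.mul_apply]
  have h : act x cc⁻¹ = permC x := by
    rw [inv_eq_of_mul_eq_one_left cc_sq]
    unfold act cc
    rw [Monoid.Coprod.lift_apply_inr, invHom_c]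
  have h2 := act_fst x g
  rw [h]
  simp only [permC, Equiv.coe_fn_mk, h2]

theorem sd_mul (h x g : GG) : sd (h * x) (h * g) = xor (sd (h * x) h) (sd x g) := by
  induction g using induction_right with
  | one => simp [sd_one]
  | hK g κ ih => rw [← mul_assoc, sd_K, ih, sd_K]
  | hc g ih =>
    rw [← mul_assoc, sd_c, sd_c, ih]
    have e1 : h * x = h * g ↔ x = g := mul_right_inj h
    have e2 : h * x = h * g * cc ↔ x = g * cc := by rw [mul_assoc]; exact mul_right_inj h
    rw [e1, e2]
    by_cases hx : x = g ∨ x = g * cc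
    · rw [if_pos hx, if_pos hx]
      cases sd (h * x) h <;> cases sd x g <;> rfl
    · rw [if_neg hx, if_neg hx]

/-- the retraction -/
def rr : GG →* GG := Monoid.Coprod.map (jK.comp πK) (MonoidHom.id _)

theorem rr_inl (κ : K) : rr (Monoid.Coprod.inl κ) = Monoid.Coprod.inl (jK (πK κ)) := rfl

theorem rr_cc : rr cc = cc := rfl

/-- the projection to `ℤ²` -/
def φφ : GG →* Multiplicative (ℤ × ℤ) := Monoid.Coprod.lift πK 1

theorem φφ_inl (κ : K) : φφ (Monoid.Coprod.inl κ) = πK κ := rfl

theorem φφ_cc : φφ cc = 1 := rfl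

/-- generating set -/
def SS : Set GG := (Monoid.Coprod.inl '' gensK) ∪ {cc}

theorem SS_finite : SS.Finite := (gensK_finite.image _).union (Set.finite_singleton _)

theorem SS_gen : Subgroup.closure SS = ⊤ := by
  rw [eq_top_iff]
  intro g _
  induction g using induction_right with
  | one => exact Subgroup.one_mem _
  | hK g κ ih =>
    refine Subgroup.mul_mem _ (ih trivial) ?_
    have h1 : κ ∈ Subgroup.closure gensK := by rw [gensK_closure]; trivial
    have h2 : Monoid.Coprod.inl κ ∈ (Subgroup.closure gensK).map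
        (Monoid.Coprod.inl : K →* GG) := ⟨κ, h1, rfl⟩
    rw [MonoidHom.map_closure] at h2
    exact Subgroup.closure_mono subset_union_left h2
  | hc g ih =>
    exact Subgroup.mul_mem _ (ih trivial) (Subgroup.subset_closure (Or.inr rfl))

theorem nrm_le_of_gensK {κ : K} (h : κ ∈ gensK) : nrm (πK κ) ≤ 1 := by
  rcases mem_gensK h with rfl | rfl | rfl <;> decide

theorem rr_idem (g : GG) : rr (rr g) = rr g := by
  have : rr.comp rr = rr := by
    apply Monoid.Coprod.hom_ext <;> rfl
  exact DFunLike.congr_fun this g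

/-- the data -/
noncomputable def data : TreeData GG where
  S := SS
  c := cc
  K := (Monoid.Coprod.inl : K →* GG).range
  j := (Monoid.Coprod.inl : K →* GG).comp jK
  r := rr
  φ := φφ
  side := sd
  gen := SS_gen
  c_mem := Or.inr rfl
  c_sq := cc_sq
  c_ne := by
    intro h
    have := Monoid.Coprod.inr_injective (h.trans (map_one _).symm)
    revert this; decide
  S_sub := by
    rintro s (⟨κ, _, rfl⟩ | h)
    · exact Or.inl ⟨κ, rfl⟩
    · exact Or.inr h
  side_K := by
    rintro x g _ ⟨κ, rfl⟩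
    exact sd_K x g κ
  side_c_ne := by
    intro x g h1 h2
    rw [sd_c, if_neg (by push Not; exact ⟨h1, h2⟩)]
  side_c_eq := by
    intro x g h
    rw [sd_c, if_pos h]
  side_trans := by
    intro h x g g'
    rw [sd_mul, sd_mul]
    cases sd (h * x) h <;> cases sd x g <;> cases sd x g' <;> simp
  r_idem := rr_idem
  r_c := rr_cc
  r_S := by
    rintro s (⟨κ, hκ, rfl⟩ | h)
    · rcases mem_gensK hκ with rfl | rfl | rfl
      · left; left; exact ⟨_, hκ, rfl⟩
      · left; left; exact ⟨_, hκ, rfl⟩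
      · right
        rw [rr_inl]
        have : πK aK = 1 := rfl
        rw [this, map_one, map_one]
    · left
      rw [h, rr_cc]; exact Or.inr rfl
  r_K := by
    rintro _ ⟨κ, rfl⟩
    exact ⟨_, rfl⟩
  j_K := fun l => ⟨_, rfl⟩
  r_j := fun l => rfl
  K_fix := by
    rintro _ ⟨κ, rfl⟩ h
    rw [rr_inl] at h
    have := Monoid.Coprod.inl_injective h
    exact ⟨πK κ, by rw [MonoidHom.comp_apply, this]⟩
  j_S1 := Or.inl ⟨_, by change _ ∈ gens; simp [gens, jK], rfl⟩
  j_S2 := Or.inl ⟨_, by change _ ∈ gens; simp [gens, jK], rfl⟩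
  φ_j := fun l => rfl
  φ_S := by
    rintro s (⟨κ, hκ, rfl⟩ | h)
    · rw [φφ_inl]; exact nrm_le_of_gensK hκ
    · rw [h, φφ_cc]; decide
  mal := by
    rintro _ ⟨κ, rfl⟩ hκ l ⟨l', hl'⟩
    have h1 : κ ∉ jK.range := by
      rintro ⟨l'', rfl⟩
      exact hκ ⟨l'', rfl⟩
    have h2 : κ⁻¹ * jK l * κ = jK l' := by
      apply Monoid.Coprod.inl_injective (N := Multiplicative (ZMod 2))
      rw [map_mul, map_mul, map_inv]
      exact hl'.symm
    exact malK h1 ⟨l', h2.symm⟩

/-- the translation in `G` -/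
def aa : GG := Monoid.Coprod.inl aK

theorem aa_not_mem : aa ∉ data.H := by
  intro h
  have h1 : rr aa = aa := data.mem_H_iff.mp h
  unfold aa at h1
  rw [rr_inl] at h1
  have h2 := Monoid.Coprod.inl_injective h1
  have h3 : (0:ℚ) = 1 := congrArg (fun κ : K => (κ : Aff).b) h2
  norm_num at h3

theorem aa_comm (l : Multiplicative (ℤ × ℤ)) :
    aa * (data.j l * aa * (data.j l)⁻¹) = (data.j l * aa * (data.j l)⁻¹) * aa := by
  have h : aK * (jK l * aK * (jK l)⁻¹) = (jK l * aK * (jK l)⁻¹) * aK := by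
    apply Subtype.ext
    change a * (j l * a * (j l)⁻¹) = (j l * a * (j l)⁻¹) * a
    simp only [mul_def, inv_def, a, j, MonoidHom.coe_mk, OneHom.coe_mk]
    ext
    · simp [sc_zero]; ring
    · simp
    · simp
  have := congrArg (Monoid.Coprod.inl : K →* GG) h
  simp only [map_mul, map_inv] at this
  exact this

theorem aa_nd (l : Multiplicative (ℤ × ℤ)) : aa * data.j l * aa ∉ data.H := by
  intro h
  have h1 : rr (aa * data.j l * aa) = aa * data.j l * aa := data.mem_H_iff.mp h
  have e : aa * data.j l * aa = Monoid.Coprod.inl (aK * jK l * aK) := by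
    rw [map_mul, map_mul]; rfl
  rw [e, rr_inl] at h1
  have h2 := Monoid.Coprod.inl_injective h1
  have h3 := congrArg (fun κ : K => (κ : Aff).b) h2
  have h4 : (0:ℚ) = 1 + sc 0 0 * 0 + sc (0 + (Multiplicative.toAdd l).1)
      (0 + (Multiplicative.toAdd l).2) * 1 := h3
  have := sc_pos (0 + (Multiplicative.toAdd l).1) (0 + (Multiplicative.toAdd l).2)
  linarith

theorem not_hyp : ¬ HypEmbedded data.H := data.not_hypEmbedded aa_not_mem aa_comm aa_nd

/-! ### A Morse ray -/

/-- length of a rotation -/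
def dlr (k : ℤ) : ℕ := 2 * Int.natAbs k

/-- length of a reflection -/
def dls (k : ℤ) : ℕ := Int.natAbs (2 * k - 1)

theorem dl_aux (k : ℤ) : dls (0 + k) ≤ dlr k + 1 ∧ dlr (k - 0) ≤ dls k + 1 ∧
    dls (1 + k) ≤ dlr k + 1 ∧ dlr (k - 1) ≤ dls k + 1 := by
  unfold dls dlr
  omega

/-- length in the infinite dihedral group -/
def dl : DihedralGroup 0 → ℕ
  | .r k => dlr k
  | .sr k => dls k

theorem dl_mul_le0 (g : DihedralGroup 0) : dl (.sr 0 * g) ≤ dl g + 1 := by
  cases g with
  | r k => exact (dl_aux k).1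
  | sr k => exact (dl_aux k).2.1

theorem dl_mul_le1 (g : DihedralGroup 0) : dl (.sr 1 * g) ≤ dl g + 1 := by
  cases g with
  | r k => exact (dl_aux k).2.2.1
  | sr k => exact (dl_aux k).2.2.2

/-- first coordinate -/
def fst' : Multiplicative (ℤ × ℤ) →* Multiplicative ℤ :=
  AddMonoidHom.toMultiplicative (AddMonoidHom.fst ℤ ℤ)

/-- homomorphism to the infinite dihedral group -/
def ψψ : GG →* DihedralGroup 0 :=
  Monoid.Coprod.lift ((zpowersHom (DihedralGroup 0) (.sr 0)).comp (fst'.comp πK))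
    (invHom (.sr 1) (DihedralGroup.sr_mul_self 1))

theorem ψψ_cc : ψψ cc = .sr 1 := by
  unfold ψψ cc
  rw [Monoid.Coprod.lift_apply_inr, invHom_c]

/-- the first generator -/
def xx : GG := Monoid.Coprod.inl (jK (Multiplicative.ofAdd (1, 0)))

theorem ψψ_xx : ψψ xx = .sr 0 := by
  unfold ψψ xx
  rw [Monoid.Coprod.lift_apply_inl]
  change (DihedralGroup.sr 0 : DihedralGroup 0) ^ (1:ℤ) = _
  exact zpow_one _

theorem ψψ_SS {s : GG} (hs : s ∈ SS) : ψψ s = .sr 0 ∨ ψψ s = .sr 1 ∨ ψψ s = 1 := by
  rcases hs with ⟨κ, hκ, rfl⟩ | h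
  · rcases mem_gensK hκ with rfl | rfl | rfl
    · left; exact ψψ_xx
    · right; right
      change (DihedralGroup.sr 0 : DihedralGroup 0) ^ (0:ℤ) = _
      exact zpow_zero _
    · right; right
      change (DihedralGroup.sr 0 : DihedralGroup 0) ^ (0:ℤ) = _
      exact zpow_zero _
  · right; left
    rw [h, ψψ_cc]

theorem dl_le (g : GG) : dl (ψψ g) ≤ wordLen SS g := by
  obtain ⟨l, hl, hs, rfl⟩ := exists_word SS_gen g
  rw [← hl]
  clear hl
  induction l with
  | nil => simp; rfl
  | cons s l ih =>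
    rw [List.prod_cons, map_mul, List.length_cons]
    have h1 := ih (fun t ht => hs t (List.mem_cons_of_mem _ ht))
    have h2 : ψψ s = .sr 0 ∨ ψψ s = .sr 1 ∨ ψψ s = 1 := by
      rcases hs s (by simp) with h | h
      · exact ψψ_SS h
      · have i0 : (DihedralGroup.sr 0 : DihedralGroup 0)⁻¹ = .sr 0 := rfl
        have i1 : (DihedralGroup.sr 1 : DihedralGroup 0)⁻¹ = .sr 1 := rfl
        have := ψψ_SS h
        rw [map_inv, inv_eq_iff_eq_inv, inv_eq_iff_eq_inv, inv_eq_one] at this
        rwa [i0, i1] at this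
    rcases h2 with h2 | h2 | h2
    · rw [h2]; have := dl_mul_le0 (ψψ l.prod); omega
    · rw [h2]; have := dl_mul_le1 (ψψ l.prod); omega
    · rw [h2, one_mul]; omega

/-- the alternating ray -/
def alt : ℕ → GG
  | 0 => 1
  | n + 1 => alt n * (if n % 2 = 0 then xx else cc)

theorem ψψ_alt (k : ℕ) : ψψ (alt (2 * k)) = .r (k : ℤ) ∧ ψψ (alt (2 * k + 1)) = .sr (-(k : ℤ)) := by
  induction k with
  | zero =>
    constructor
    · change ψψ 1 = _
      rw [map_one]; rfl
    · change ψψ (1 * xx) = _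
      rw [one_mul, ψψ_xx]; rfl
  | succ k ih =>
    have e1 : alt (2 * (k + 1)) = alt (2 * k + 1) * cc := by
      change alt (2 * k + 1) * (if (2 * k + 1) % 2 = 0 then xx else cc) = _
      rw [if_neg (by omega)]
    have e2 : alt (2 * (k + 1) + 1) = alt (2 * (k + 1)) * xx := by
      change alt (2 * (k + 1)) * (if (2 * (k + 1)) % 2 = 0 then xx else cc) = _
      rw [if_pos (by omega)]
    have h1 : ψψ (alt (2 * (k + 1))) = .r ((k + 1 : ℕ) : ℤ) := by
      rw [e1, map_mul, ih.2, ψψ_cc]
      have h : (1:ℤ) - (-(k:ℤ)) = ((k + 1 : ℕ) : ℤ) := by push_cast; ring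
      exact congrArg (DihedralGroup.r (n := 0)) h
    refine ⟨h1, ?_⟩
    rw [e2, map_mul, h1, ψψ_xx]
    have h : (0:ℤ) - ((k + 1 : ℕ) : ℤ) = -((k + 1 : ℕ) : ℤ) := by ring
    exact congrArg (DihedralGroup.sr (n := 0)) h

theorem alt_dist_le (i j : ℕ) (h : i ≤ j) : wordDist SS (alt i) (alt j) ≤ j - i := by
  induction j, h using Nat.le_induction with
  | base => rw [wordDist_self]; exact Nat.zero_le _
  | succ j hij ih =>
    have h1 := wordDist_triangle SS_gen (alt i) (alt j) (alt (j+1))
    have h2 : wordDist SS (alt j) (alt (j+1)) ≤ 1 := by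
      unfold wordDist
      have : (alt j)⁻¹ * alt (j+1) = if j % 2 = 0 then xx else cc := by
        change (alt j)⁻¹ * (alt j * _) = _
        rw [inv_mul_cancel_left]
      rw [this]
      apply wordLen_le_one
      left
      split_ifs
      · exact data.j_S1
      · exact Or.inr rfl
    omega

theorem alt_dist (i j : ℕ) (h : i ≤ j) : wordDist SS (alt i) (alt j) = j - i := by
  apply le_antisymm (alt_dist_le i j h)
  refine le_trans ?_ (dl_le _)
  rw [map_mul, map_inv]
  obtain ⟨a, ha⟩ := Nat.even_or_odd' i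
  obtain ⟨b, hb⟩ := Nat.even_or_odd' j
  rcases ha with rfl | rfl <;> rcases hb with rfl | rfl
  · rw [(ψψ_alt a).1, (ψψ_alt b).1]
    change _ ≤ dlr (-(a:ℤ) + b)
    unfold dlr; omega
  · rw [(ψψ_alt a).1, (ψψ_alt b).2]
    change _ ≤ dls (-(b:ℤ) - (-(a:ℤ)))
    unfold dls; omega
  · rw [(ψψ_alt a).2, (ψψ_alt b).1]
    change _ ≤ dls (-(a:ℤ) + b)
    unfold dls; omega
  · rw [(ψψ_alt a).2, (ψψ_alt b).2]
    change _ ≤ dlr (-(b:ℤ) - (-(a:ℤ)))
    unfold dlr; omega

theorem alt_mem (n : ℕ) : alt n ∈ data.H := by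
  induction n with
  | zero => exact data.H.one_mem
  | succ n ih =>
    refine data.H.mul_mem ih ?_
    split_ifs
    · exact data.j_mem_H _
    · exact data.c_mem_H

theorem alt_gap (s : ℕ) : ∃ t, s ≤ t ∧ t < s + 2 ∧ alt (t+1) = alt t * cc := by
  rcases Nat.even_or_odd' s with ⟨k, rfl | rfl⟩
  · refine ⟨2 * k + 1, by omega, by omega, ?_⟩
    change alt (2 * k + 1) * (if (2 * k + 1) % 2 = 0 then xx else cc) = _
    rw [if_neg (by omega)]
  · refine ⟨2 * k + 1, by omega, by omega, ?_⟩
    change alt (2 * k + 1) * (if (2 * k + 1) % 2 = 0 then xx else cc) = _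
    rw [if_neg (by omega)]

theorem nonempty_bdry : Nonempty (MorseBdry (wordDist data.T) (1 : data.H)) := by
  have h1 : IsMorseSet data.d (gauge 2) (range alt) :=
    data.morse_ray (fun m i j hij _ => alt_dist i j hij) alt_gap
  have h2 : IsMorseSet (wordDist data.T) (gauge 2)
      (range (fun n => (⟨alt n, alt_mem n⟩ : data.H))) := by
    apply data.morse_H_of
    exact h1
  refine ⟨MorseRay.toBdry ⟨fun n => ⟨alt n, alt_mem n⟩, ⟨Subtype.ext rfl, fun i j hij => ?_⟩, _, h2⟩⟩
  rw [data.dist_T]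
  exact alt_dist i j hij

theorem T_finite : data.T.Finite :=
  SS_finite.preimage (Subtype.val_injective.injOn)

end Pool.Agent.Lib.MP_1d7d98_al
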