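import Pool.Agent.Lib.MP_1d7d98_al.WordMetric

/-!
Morse boundary (of a space with an integer valued distance, such as a group with a word metric),
limit sets, almost malnormal subgroups and hyperbolically embedded subgroups.
-/

namespace Pool.Agent.Lib.MP_1d7d98_al

open Set Filter

section Space

variable {X : Type*}

/-- `q 0, ..., q n` is a (discrete) `(lam, eps)`-quasi-geodesic. -/
def IsQuasiGeod (d : X → X → ℕ) (lam eps : ℝ) (n : ℕ) (q : ℕ → X) : Prop :=
  ∀ i j : ℕ, i ≤ j → j ≤ n → ((j:ℝ) - i) / lam - eps ≤ (d (q i) (q j) : ℝ) ∧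
    (d (q i) (q j) : ℝ) ≤ lam * (j - i) + eps

/-- The set `A` (the trace of a geodesic ray or segment) is `N`-Morse: every
`(lam, eps)`-quasi-geodesic with endpoints in `A` stays in the `N lam eps`-neighbourhood of `A`. -/
def IsMorseSet (d : X → X → ℕ) (N : ℝ → ℝ → ℝ) (A : Set X) : Prop :=
  ∀ lam eps : ℝ, 1 ≤ lam → 0 ≤ eps → ∀ (n : ℕ) (q : ℕ → X), IsQuasiGeod d lam eps n q →
    q 0 ∈ A → q n ∈ A → ∀ i ≤ n, ∃ a ∈ A, (d (q i) a : ℝ) ≤ N lam eps

/-- `γ` is a geodesic ray from `x`. -/
def IsRay (d : X → X → ℕ) (x : X) (γ : ℕ → X) : Prop :=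
  γ 0 = x ∧ ∀ i j : ℕ, i ≤ j → d (γ i) (γ j) = j - i

/-- The `N`-Morse geodesic rays from `x`. -/
structure MRay (d : X → X → ℕ) (x : X) (N : ℝ → ℝ → ℝ) where
  /-- the sequence of points -/
  toFun : ℕ → X
  isRay : IsRay d x toFun
  morse : IsMorseSet d N (range toFun)

/-- The Morse geodesic rays from `x`. -/
structure MorseRay (d : X → X → ℕ) (x : X) where
  /-- the sequence of points -/
  toFun : ℕ → X
  isRay : IsRay d x toFun
  morse : ∃ N : ℝ → ℝ → ℝ, IsMorseSet d N (range toFun)

/-- Finite Hausdorff distance. -/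
def Close (d : X → X → ℕ) (γ ρ : ℕ → X) : Prop :=
  ∃ C : ℕ, (∀ n, ∃ m, d (γ n) (ρ m) ≤ C) ∧ ∀ n, ∃ m, d (ρ n) (γ m) ≤ C

/-- The Morse boundary, as a set: Morse geodesic rays from `x` up to finite Hausdorff distance. -/
def MorseBdry (d : X → X → ℕ) (x : X) : Type _ :=
  Quot (fun γ ρ : MorseRay d x => Close d γ.toFun ρ.toFun)

/-- The class of a Morse ray. -/
def MorseRay.toBdry {d : X → X → ℕ} {x : X} (γ : MorseRay d x) : MorseBdry d x := Quot.mk _ γ

/-- An `N`-Morse ray is a Morse ray. -/
def MRay.toMorseRay {d : X → X → ℕ} {x : X} {N : ℝ → ℝ → ℝ} (γ : MRay d x N) : MorseRay d x :=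
  ⟨γ.toFun, γ.isRay, N, γ.morse⟩

/-- The class of an `N`-Morse ray. -/
def MRay.toBdry {d : X → X → ℕ} {x : X} {N : ℝ → ℝ → ℝ} (γ : MRay d x N) : MorseBdry d x :=
  γ.toMorseRay.toBdry

/-- Uniform convergence on compact sets (here: pointwise convergence with respect to the discrete
topology of `X`) on the set of `N`-Morse rays from `x`. -/
@[reducible] def rayTopology (d : X → X → ℕ) (x : X) (N : ℝ → ℝ → ℝ) :
    TopologicalSpace (MRay d x N) :=
  TopologicalSpace.induced MRay.toFun (@Pi.topologicalSpace ℕ (fun _ => X) (fun _ => ⊥))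

/-- The direct limit topology on the Morse boundary: a set is open if and only if for every gauge
`N` its preimage in the space of `N`-Morse rays is open. -/
instance (d : X → X → ℕ) (x : X) : TopologicalSpace (MorseBdry d x) :=
  ⨆ N : ℝ → ℝ → ℝ, TopologicalSpace.coinduced MRay.toBdry (rayTopology d x N)

end Space

section Groups

variable {G : Type*} [Group G]

/-- The limit set of `H` in the Morse boundary of `G` (word metric with respect to `S`): classes of
`N`-Morse rays which are limits, uniformly on compact sets, of `N`-Morse geodesics from `1` to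
elements of `H`, for some gauge `N`. -/
def limitSet (S : Set G) (H : Subgroup G) : Set (MorseBdry (wordDist S) (1 : G)) :=
  {ξ | ∃ (N : ℝ → ℝ → ℝ) (ρ : MRay (wordDist S) (1 : G) N) (m : ℕ → ℕ) (σ : ℕ → ℕ → G),
    ξ = ρ.toBdry ∧
    (∀ n, σ n 0 = 1 ∧ σ n (m n) ∈ H ∧ IsGeod S (m n) (σ n) ∧
      IsMorseSet (wordDist S) N (σ n '' Iic (m n))) ∧
    ∀ k, ∀ᶠ n in atTop, k ≤ m n ∧ σ n k = ρ.toFun k}

/-- The inclusion of `H` (word metric with respect to `T`) in `G` (word metric with respect to `S`)
induces a homeomorphism from the Morse boundary of `H` onto the limit set of `H`: there is a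
homeomorphism sending the class of a Morse ray `γ` of `H` to the class of a Morse ray of `G` at
finite Hausdorff distance from the image of `γ`. -/
def InducesHomeo (S : Set G) (H : Subgroup G) (T : Set H) : Prop :=
  ∃ f : MorseBdry (wordDist T) (1 : H) ≃ₜ limitSet S H,
    ∀ γ : MorseRay (wordDist T) (1 : H), ∃ ρ : MorseRay (wordDist S) (1 : G),
      (f γ.toBdry : MorseBdry (wordDist S) (1 : G)) = ρ.toBdry ∧
      Close (wordDist S) (fun n => (γ.toFun n : G)) ρ.toFun

/-- `H` is almost malnormal: `H ∩ g H g⁻¹` is finite for every `g` not in `H`. -/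
def AlmostMalnormal (H : Subgroup G) : Prop :=
  ∀ g : G, g ∉ H → {x : G | x ∈ H ∧ g⁻¹ * x * g ∈ H}.Finite

/-- Edges of the Cayley graph of `G` with respect to the disjoint union of `Y` and `H`, except the
edges of the complete subgraph on `H` labelled by elements of `H`: either the edge is labelled by
an element of `Y`, or it is labelled by an element of `H` and starts outside `H`. -/
def AdmStep (Y : Set G) (H : Subgroup G) (g g' : G) : Prop :=
  (g⁻¹ * g' ∈ Y ∨ g'⁻¹ * g ∈ Y) ∨ (g ∉ H ∧ g⁻¹ * g' ∈ H)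

/-- The ball of radius `n` about `h` in `H` for the relative metric: elements of `H` joined to `h`
by a path with at most `n` edges, none of which is an edge of the complete subgraph on `H`
labelled by elements of `H`. -/
def relBall (Y : Set G) (H : Subgroup G) (h : G) (n : ℕ) : Set G :=
  {k | k ∈ H ∧ ∃ m ≤ n, ∃ p : ℕ → G, p 0 = h ∧ p m = k ∧ ∀ i < m, AdmStep Y H (p i) (p (i+1))}

/-- Four point condition for hyperbolicity. -/
def IsHyperbolic {X : Type*} (d : X → X → ℕ) : Prop :=
  ∃ δ : ℕ, ∀ x y z w : X, d x y + d z w ≤ max (d x z + d y w) (d x w + d y z) + δ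

/-- `H` is hyperbolically embedded in `G`: for some `Y` such that `Y ∪ H` generates `G`, the Cayley
graph of `G` with respect to `Y ⊔ H` is hyperbolic and the relative metric on `H` is locally
finite. -/
def HypEmbedded (H : Subgroup G) : Prop :=
  ∃ Y : Set G, Subgroup.closure (Y ∪ H) = ⊤ ∧ IsHyperbolic (wordDist (Y ∪ H)) ∧
    ∀ h ∈ H, ∀ n, (relBall Y H h n).Finite

end Groups

end Pool.Agent.Lib.MP_1d7d98_al
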