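import Pool.Agent.Lib.MP_1d7d98_al.Morse

/-!
Morse geodesics related to `H` have `c`-steps with bounded gaps.
-/

namespace Pool.Agent.Lib.MP_1d7d98_al

open Set Filter

namespace TreeData

variable {G : Type*} [Group G] (D : TreeData G)

/-- The generating set of `H`. -/
def T : Set D.H := {h | (h : G) ∈ D.S}

/-- The retraction onto `H`. -/
def rH : G →* D.H := D.r.rangeRestrict

theorem coe_rH (g : G) : (D.rH g : G) = D.r g := rfl

theorem rH_coe (h : D.H) : D.rH (h : G) = h := by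
  apply Subtype.ext
  rw [coe_rH]
  exact D.mem_H_iff.mp h.2

theorem rH_S {s : G} (hs : s ∈ D.S) : D.rH s ∈ D.T ∨ D.rH s = 1 := by
  rcases D.r_S s hs with h | h
  · left; exact h
  · right; apply Subtype.ext; exact h

theorem T_gen : Subgroup.closure D.T = ⊤ := by
  rw [eq_top_iff]
  intro h _
  rw [← D.rH_coe h]
  have hg : (h : G) ∈ Subgroup.closure D.S := by rw [D.gen]; trivial
  have : D.rH h ∈ (Subgroup.closure D.S).map D.rH := ⟨_, hg, rfl⟩
  rw [MonoidHom.map_closure] at this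
  refine (Subgroup.closure_le _).mpr ?_ this
  rintro _ ⟨s, hs, rfl⟩
  rcases D.rH_S hs with h1 | h1
  · exact Subgroup.subset_closure h1
  · rw [h1]; exact (Subgroup.closure D.T).one_mem

theorem wordLen_T (h : D.H) : wordLen D.T h = wordLen D.S (h : G) := by
  apply le_antisymm
  · have := wordLen_map_le (S' := D.T) D.gen D.rH (fun s hs => by
      rcases D.rH_S hs with h1 | h1
      · exact Or.inl (Or.inl h1)
      · exact Or.inr h1) (h : G)
    rwa [D.rH_coe] at this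
  · exact wordLen_map_le (S' := D.S) D.T_gen D.H.subtype (fun s hs => Or.inl (Or.inl hs)) h

theorem dist_T (h h' : D.H) : wordDist D.T h h' = D.d (h : G) (h' : G) := by
  unfold wordDist
  rw [D.wordLen_T]; rfl

/-- a path without `c`-steps stays in a coset of `K` -/
theorem no_c_step {m : ℕ} {γ : ℕ → G} (hγ : IsGeod D.S m γ) {s t : ℕ} (hst : s ≤ t) (ht : t ≤ m)
    (hno : ∀ u, s ≤ u → u < t → γ (u+1) ≠ γ u * D.c) : (γ s)⁻¹ * γ t ∈ D.K := by
  induction t, hst using Nat.le_induction with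
  | base => simp
  | succ t hst ih =>
    have h1 := ih (by omega) (fun u h1 h2 => hno u h1 (by omega))
    rcases D.geod_step hγ (i := t) (by omega) with h2 | h2
    · exact absurd h2 (hno t hst (by omega))
    · have := D.K.mul_mem h1 h2
      simpa [mul_assoc] using this

/-- last block start before `s` -/
theorem exists_start (γ : ℕ → G) (s : ℕ) : ∃ s' ≤ s, (s' = 0 ∨ γ s' = γ (s' - 1) * D.c) ∧
    ∀ u, s' ≤ u → u < s → γ (u+1) ≠ γ u * D.c := by
  induction s with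
  | zero => exact ⟨0, le_rfl, Or.inl rfl, fun u _ h => absurd h (by omega)⟩
  | succ s ih =>
    by_cases h : γ (s+1) = γ s * D.c
    · exact ⟨s+1, le_rfl, Or.inr (by simpa using h), fun u h1 h2 => by omega⟩
    · obtain ⟨s', h1, h2, h3⟩ := ih
      refine ⟨s', by omega, h2, fun u h4 h5 => ?_⟩
      rcases Nat.lt_succ_iff_lt_or_eq.mp h5 with h6 | h6
      · exact h3 u h4 h6
      · rw [h6]; exact h

/-- The basic gap lemma. -/
theorem gap_of_block {N : ℝ → ℝ → ℝ} {A : Set G} {γ : ℕ → G} {s e : ℕ}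
    (hse : s + blockBound N + 1 ≤ e) (h0 : γ 0 ∈ D.H) (hgeo : IsGeod D.S e γ)
    (hcH : ∀ u, u < e → γ (u+1) = γ u * D.c → γ u ∈ D.H)
    (heH : (∀ u, s ≤ u → u < e → γ (u+1) ≠ γ u * D.c) → γ e ∈ D.H)
    (hA : ∀ s t, s ≤ t → t ≤ e → γ s ∈ D.H → ∀ q : ℕ → G, ∀ n, IsQuasiGeod D.d 4 0 n q →
      q 0 = γ s → q n = γ t → (∀ i, ∃ l, q i = γ s * D.j l) → ∀ i ≤ n, ∃ a ∈ A,
      (D.d (q i) a : ℝ) ≤ N 4 0)
    (hAγ : ∀ t ≤ e, ∀ a ∈ A, ∃ τ, a = γ τ ∧ IsGeod D.S (max τ t) γ) :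
    ∃ t, s ≤ t ∧ t < s + blockBound N + 1 ∧ γ (t+1) = γ t * D.c := by
  classical
  obtain ⟨s', hs', hstart, hno⟩ := D.exists_start γ s
  have hs'H : γ s' ∈ D.H := by
    rcases hstart with h | h
    · rw [h]; exact h0
    · rcases Nat.eq_zero_or_pos s' with h3 | h3
      · rw [h3]; exact h0
      · rw [h]
        refine D.H.mul_mem (hcH (s' - 1) (by omega) ?_) D.c_mem_H
        rw [Nat.sub_add_cancel h3]; exact h
  by_cases hex : ∃ t, s ≤ t ∧ t < e ∧ γ (t+1) = γ t * D.c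
  · obtain ⟨h1, h2, h3⟩ := Nat.find_spec hex
    set t := Nat.find hex with ht
    refine ⟨t, h1, ?_, h3⟩
    have hK : (γ s')⁻¹ * γ t ∈ D.K := by
      apply D.no_c_step hgeo (by omega) h2.le
      intro u h4 h5 h6
      rcases lt_or_ge u s with h7 | h7
      · exact hno u h4 h7 h6
      · exact Nat.find_min hex h5 ⟨h7, by omega, h6⟩
    have hH : (γ s')⁻¹ * γ t ∈ D.H := D.H.mul_mem (D.H.inv_mem hs'H) (hcH t h2 h3)
    obtain ⟨l, hl⟩ := D.mem_j_of hK hH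
    have := D.block_bound (N := N) (A := A) (s := s') (t := t) (by omega)
      (hA s' t (by omega) h2.le hs'H) (hAγ t h2.le) hstart ⟨l, by rw [hl]; group⟩ (hgeo.mono h2.le)
    omega
  · push Not at hex
    exfalso
    have heH' := heH hex
    have hK : (γ s')⁻¹ * γ e ∈ D.K := by
      apply D.no_c_step hgeo (by omega) le_rfl
      intro u h4 h5 h6
      rcases lt_or_ge u s with h7 | h7
      · exact hno u h4 h7 h6
      · exact hex u h7 h5 h6
    have hH : (γ s')⁻¹ * γ e ∈ D.H := D.H.mul_mem (D.H.inv_mem hs'H) heH'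
    obtain ⟨l, hl⟩ := D.mem_j_of hK hH
    have := D.block_bound (N := N) (A := A) (s := s') (t := e) (by omega)
      (hA s' e (by omega) le_rfl hs'H) (hAγ e le_rfl) hstart ⟨l, by rw [hl]; group⟩ hgeo
    omega

/-- Morse rays of `H` have bounded gaps. -/
theorem gap_H {N : ℝ → ℝ → ℝ} {γ : ℕ → D.H} (hγ : IsRay (wordDist D.T) 1 γ)
    (hM : IsMorseSet (wordDist D.T) N (range γ)) (s : ℕ) :
    ∃ t, s ≤ t ∧ t < s + (blockBound N + 1) ∧ (γ (t+1) : G) = γ t * D.c := by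
  have hgeo : ∀ m, IsGeod D.S m (fun n => (γ n : G)) := by
    intro m i j hij _
    have := hγ.2 i j hij
    rwa [D.dist_T] at this
  have := D.gap_of_block (N := N) (A := range (fun n => (γ n : G))) (γ := fun n => (γ n : G))
    (s := s) (e := s + blockBound N + 1) le_rfl (γ 0).2 (hgeo _) (fun u _ _ => (γ u).2)
    (fun _ => (γ _).2) ?_ ?_
  · obtain ⟨t, h1, h2, h3⟩ := this
    exact ⟨t, h1, by omega, h3⟩
  · intro s t _ _ _ q n hq hq0 hqn hqj i hi
    have hqH : ∀ i, q i ∈ D.H := by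
      intro i
      obtain ⟨l, hl⟩ := hqj i
      rw [hl]
      exact D.H.mul_mem (γ s).2 (D.j_mem_H l)
    have hq' : IsQuasiGeod (wordDist D.T) 4 0 n (fun i => (⟨q i, hqH i⟩ : D.H)) := by
      intro i j hij hj
      rw [D.dist_T]
      exact hq i j hij hj
    obtain ⟨a, ⟨k, rfl⟩, ha⟩ := hM 4 0 (by norm_num) le_rfl n _ hq' ⟨s, Subtype.ext hq0.symm⟩
      ⟨t, Subtype.ext hqn.symm⟩ i hi
    rw [D.dist_T] at ha
    exact ⟨_, ⟨k, rfl⟩, ha⟩
  · rintro t _ _ ⟨τ, rfl⟩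
    exact ⟨τ, rfl, hgeo _⟩

/-- Morse rays of `G` with infinitely many `c`-steps, all in `H`, have bounded gaps. -/
theorem gap_G {N : ℝ → ℝ → ℝ} {ρ : ℕ → G} (hρ : IsRay D.d 1 ρ)
    (hM : IsMorseSet D.d N (range ρ)) (hH : ∀ t, ρ (t+1) = ρ t * D.c → ρ t ∈ D.H)
    (hinf : ∀ s, ∃ t, s ≤ t ∧ ρ (t+1) = ρ t * D.c) (s : ℕ) :
    ∃ t, s ≤ t ∧ t < s + (blockBound N + 1) ∧ ρ (t+1) = ρ t * D.c := by
  obtain ⟨e, he, hce⟩ := hinf (s + blockBound N + 1)
  have hgeo : ∀ m, IsGeod D.S m ρ := fun m i j hij _ => hρ.2 i j hij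
  have := D.gap_of_block (N := N) (A := range ρ) (γ := ρ) (s := s) (e := e) he
    (by rw [hρ.1]; exact D.H.one_mem) (hgeo _) (fun u _ h => hH u h) (fun _ => hH e hce) ?_ ?_
  · obtain ⟨t, h1, h2, h3⟩ := this
    exact ⟨t, h1, by omega, h3⟩
  · intro s t _ _ _ q n hq hq0 hqn _ i hi
    exact hM 4 0 (by norm_num) le_rfl n q hq ⟨s, hq0.symm⟩ ⟨t, hqn.symm⟩ i hi
  · rintro t _ _ ⟨τ, rfl⟩
    exact ⟨τ, rfl, hgeo _⟩

/-- `c`-steps of geodesics between points of `H`. -/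
theorem seg_H {m : ℕ} {σ : ℕ → G} (hσ : IsGeod D.S m σ) (h0 : σ 0 ∈ D.H) (hm : σ m ∈ D.H)
    {t : ℕ} (ht : t < m) (hc : σ (t+1) = σ t * D.c) : σ t ∈ D.H :=
  D.mem_H_of_side h0 hm (D.side_ne hσ hc (Nat.zero_le _) ht le_rfl)

/-- Morse segments between points of `H` have bounded gaps. -/
theorem gap_seg {N : ℝ → ℝ → ℝ} {m : ℕ} {σ : ℕ → G} (hσ : IsGeod D.S m σ) (h0 : σ 0 ∈ D.H)
    (hm : σ m ∈ D.H) (hM : IsMorseSet D.d N (σ '' Iic m)) {s : ℕ}
    (hs : s + (blockBound N + 1) ≤ m) :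
    ∃ t, s ≤ t ∧ t < s + (blockBound N + 1) ∧ σ (t+1) = σ t * D.c := by
  have := D.gap_of_block (N := N) (A := σ '' Iic m) (γ := σ) (s := s) (e := m) (by omega) h0 hσ
    (fun u hu h => D.seg_H hσ h0 hm hu h) (fun _ => hm) ?_ ?_
  · obtain ⟨t, h1, h2, h3⟩ := this
    exact ⟨t, h1, by omega, h3⟩
  · intro s t hst ht _ q n hq hq0 hqn _ i hi
    exact hM 4 0 (by norm_num) le_rfl n q hq ⟨s, mem_Iic.mpr (hst.trans ht), hq0.symm⟩
      ⟨t, ht, hqn.symm⟩ i hi
  · rintro t ht _ ⟨τ, hτ, rfl⟩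
    exact ⟨τ, rfl, hσ.mono (max_le hτ ht)⟩

/-- Close rays share `c`-steps. -/
theorem share {γ ρ : ℕ → G} (hγ : IsRay D.d 1 γ) (hρ : IsRay D.d 1 ρ) (h : Close D.d γ ρ)
    {t : ℕ} (hc : γ (t+1) = γ t * D.c) : ρ t = γ t ∧ ρ (t+1) = γ (t+1) := by
  have gγ : ∀ m, IsGeod D.S m γ := fun m i j hij _ => hγ.2 i j hij
  have gρ : ∀ m, IsGeod D.S m ρ := fun m i j hij _ => hρ.2 i j hij
  obtain ⟨C, hC, _⟩ := h
  set n := t + 1 + C + 1 with hn
  obtain ⟨m, hm⟩ := hC n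
  have h1 : D.side (γ t) (γ n) = D.side (γ t) (ρ m) := by
    by_contra hne
    have h2 := (D.dist_le_of_side hne).2
    rw [← hc] at h2
    have h3 : D.d (γ n) (γ (t+1)) = n - (t+1) := by
      rw [D.d_comm]; exact hγ.2 (t+1) n (by omega)
    omega
  have h4 : D.side (γ t) (ρ 0) ≠ D.side (γ t) (ρ m) := by
    rw [← h1, hρ.1, ← hγ.1]
    exact D.side_ne (gγ n) hc (Nat.zero_le _) (by omega) le_rfl
  obtain ⟨l, _, hl, hne⟩ := D.exists_change (Nat.zero_le _) h4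
  obtain ⟨h5, h6⟩ := D.side_change (D.geod_step (gρ m) hl) hne
  have d1 : ∀ i, D.d 1 (γ i) = i := by
    intro i; have := hγ.2 0 i (Nat.zero_le _); rwa [hγ.1, Nat.sub_zero] at this
  have d2 : ∀ i, D.d 1 (ρ i) = i := by
    intro i; have := hρ.2 0 i (Nat.zero_le _); rwa [hρ.1, Nat.sub_zero] at this
  rcases h6 with h6 | h6
  · have e : t = l := by
      have := d1 t
      rw [h6, d2] at this
      exact this.symm
    subst e
    exact ⟨h6.symm, by rw [h5, hc, h6]⟩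
  · exfalso
    have e1 : t = l + 1 := by
      have := d1 t
      rw [h6, d2] at this
      exact this.symm
    have e2 : γ (t+1) = ρ l := by
      rw [hc, h6, h5, D.mul_c_c]
    have := d1 (t+1)
    rw [e2, d2] at this
    omega

end TreeData

end Pool.Agent.Lib.MP_1d7d98_al
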