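import Pool.Agent.Lib.MP_1d7d98_al.Tree

/-!
Geodesics with many `c`-steps are Morse, and Morse geodesics have short blocks along `ℤ²`.
-/

namespace Pool.Agent.Lib.MP_1d7d98_al

open Set Filter

theorem IsGeod.mono {G : Type*} [Group G] {S : Set G} {m m' : ℕ} {p : ℕ → G} (h : IsGeod S m p)
    (hm : m' ≤ m) : IsGeod S m' p := fun i j hij hj => h i j hij (hj.trans hm)

/-- The gauge. -/
noncomputable def gauge (D : ℕ) (lam eps : ℝ) : ℝ :=
  lam * (lam * (2 * (lam + eps) + D + eps)) + eps + (lam + eps)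

/-- The bound on blocks. -/
noncomputable def blockBound (N : ℝ → ℝ → ℝ) : ℕ := 2 * ⌈N 4 0⌉₊ + 2

namespace TreeData

variable {G : Type*} [Group G] (D : TreeData G)

theorem qg_jump {lam eps : ℝ} {n : ℕ} {q : ℕ → G} (hq : IsQuasiGeod D.d lam eps n q) {i : ℕ}
    (hi : i < n) : (D.d (q i) (q (i+1)) : ℝ) ≤ lam + eps := by
  have := (hq i (i+1) (Nat.le_succ i) hi).2
  push_cast at this
  linarith

theorem near_crossing {lam eps : ℝ} {n : ℕ} {q : ℕ → G} (hq : IsQuasiGeod D.d lam eps n q)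
    {x : G} {i k : ℕ} (hik : i ≤ k) (hk : k ≤ n) (h : D.side x (q i) ≠ D.side x (q k)) :
    ∃ l, i ≤ l ∧ l ≤ k ∧ (D.d (q l) x : ℝ) ≤ lam + eps := by
  obtain ⟨l, h1, h2, hne⟩ := D.exists_change hik h
  refine ⟨l, h1, h2.le, ?_⟩
  have h3 := (D.dist_le_of_side hne).1
  have h4 := D.qg_jump hq (i := l) (by omega)
  have h5 : (D.d (q l) x : ℝ) ≤ D.d (q l) (q (l+1)) := by exact_mod_cast h3
  linarith

theorem morse_aux {m E : ℕ} {γ : ℕ → G} (hγ : IsGeod D.S m γ)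
    (hgap : ∀ s, s + E ≤ m → ∃ t, s ≤ t ∧ t < s + E ∧ γ (t+1) = γ t * D.c)
    {lam eps : ℝ} (hlam : 1 ≤ lam) (heps : 0 ≤ eps) {n : ℕ} {q : ℕ → G}
    (hq : IsQuasiGeod D.d lam eps n q) {s0 t0 : ℕ} (hst : s0 ≤ t0) (ht0 : t0 ≤ m)
    (hq0 : q 0 = γ s0) (hqn : q n = γ t0) {i : ℕ} (hi : i ≤ n) :
    ∃ k ≤ m, (D.d (q i) (γ k) : ℝ) ≤ gauge E lam eps := by
  classical
  have hJ0 : 0 ≤ lam + eps := by linarith
  -- first checkpoint
  have step1 : ∃ τ₁, s0 ≤ τ₁ ∧ τ₁ ≤ t0 ∧ (∃ i₁ ≤ i, (D.d (q i₁) (γ τ₁) : ℝ) ≤ lam + eps) ∧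
      ∀ t, τ₁ < t → t < t0 → γ (t+1) = γ t * D.c → D.side (γ t) (q i) = D.side (γ t) (γ t) := by
    set P : ℕ → Prop := fun t => s0 ≤ t ∧ t < t0 ∧ γ (t+1) = γ t * D.c ∧
      D.side (γ t) (q i) ≠ D.side (γ t) (γ t) with hP
    by_cases hex : ∃ t, P t
    · obtain ⟨t, ht⟩ := hex
      have hle : t ≤ t0 := ht.2.1.le
      have hfg := Nat.findGreatest_spec (P := P) hle ht
      set τ := Nat.findGreatest P t0 with hτ
      refine ⟨τ, hfg.1, hfg.2.1.le, ?_, ?_⟩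
      · have hne : D.side (γ τ) (q 0) ≠ D.side (γ τ) (q i) := by
          rw [hq0, D.side_before hγ (by omega) hfg.2.2.1 hfg.1]
          exact hfg.2.2.2.symm
        obtain ⟨l, _, h2, h3⟩ := D.near_crossing hq (Nat.zero_le _) hi hne
        exact ⟨l, h2, h3⟩
      · intro t' h1 h2 h3
        by_contra h4
        have := Nat.le_findGreatest (P := P) h2.le ⟨by omega, h2, h3, h4⟩
        omega
    · refine ⟨s0, le_rfl, hst, ⟨0, Nat.zero_le _, ?_⟩, ?_⟩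
      · rw [hq0]
        rw [D.d_self]; simpa using hJ0
      · intro t h1 h2 h3
        by_contra h4
        exact hex ⟨t, by omega, h2, h3, h4⟩
  obtain ⟨τ₁, ha, hb, ⟨i₁, hi₁, hd₁⟩, hnear⟩ := step1
  -- second checkpoint
  have step2 : ∃ τ₂, τ₁ ≤ τ₂ ∧ τ₂ ≤ m ∧ τ₂ ≤ τ₁ + E ∧
      ∃ i₂, i ≤ i₂ ∧ i₂ ≤ n ∧ (D.d (q i₂) (γ τ₂) : ℝ) ≤ lam + eps := by
    by_cases hex : ∃ t, τ₁ < t ∧ t < t0 ∧ γ (t+1) = γ t * D.c
    · obtain ⟨h1, h2, h3⟩ := Nat.find_spec hex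
      set τ := Nat.find hex with hτ
      refine ⟨τ, h1.le, by omega, ?_, ?_⟩
      · by_contra hgt
        obtain ⟨t, ht1, ht2, ht3⟩ := hgap (τ₁ + 1) (by omega)
        have := Nat.find_min hex (m := t) (by omega)
        exact this ⟨by omega, by omega, ht3⟩
      · have hne : D.side (γ τ) (q i) ≠ D.side (γ τ) (q n) := by
          rw [hnear τ h1 h2 h3, hqn]
          exact D.side_ne hγ h3 le_rfl h2 ht0
        obtain ⟨l, h4, h5, h6⟩ := D.near_crossing hq hi le_rfl hne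
        exact ⟨l, h4, h5, h6⟩
    · refine ⟨t0, hb, ht0, ?_, n, hi, le_rfl, ?_⟩
      · by_contra hgt
        obtain ⟨t, ht1, ht2, ht3⟩ := hgap (τ₁ + 1) (by omega)
        exact hex ⟨t, by omega, by omega, ht3⟩
      · rw [hqn]
        rw [D.d_self]; simpa using hJ0
  obtain ⟨τ₂, hc, hd, he, i₂, hi₂, hi₂n, hd₂⟩ := step2
  refine ⟨τ₁, by omega, ?_⟩
  have e1 : D.d (γ τ₁) (γ τ₂) = τ₂ - τ₁ := hγ τ₁ τ₂ hc hd
  have t1 := D.tri (q i₁) (γ τ₁) (q i₂)
  have t2 := D.tri (γ τ₁) (γ τ₂) (q i₂)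
  have t3 : D.d (γ τ₂) (q i₂) = D.d (q i₂) (γ τ₂) := D.d_comm _ _
  have t4 : (D.d (q i₁) (q i₂) : ℝ) ≤ (lam + eps) + E + (lam + eps) := by
    have h1 : D.d (q i₁) (q i₂) ≤ D.d (q i₁) (γ τ₁) + (E + D.d (q i₂) (γ τ₂)) := by
      have : D.d (γ τ₁) (γ τ₂) ≤ E := by omega
      omega
    have h2 : (D.d (q i₁) (q i₂) : ℝ) ≤ D.d (q i₁) (γ τ₁) + (E + D.d (q i₂) (γ τ₂)) := by
      exact_mod_cast h1
    linarith
  have hlam0 : 0 < lam := by linarith
  have lower := (hq i₁ i₂ (hi₁.trans hi₂) hi₂n).1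
  have h5 : ((i₂:ℝ) - i₁) ≤ lam * (2 * (lam + eps) + E + eps) := by
    have : ((i₂:ℝ) - i₁) / lam ≤ 2 * (lam + eps) + E + eps := by linarith
    rw [div_le_iff₀ hlam0] at this
    linarith
  have hii : (i:ℝ) ≤ i₂ := by exact_mod_cast hi₂
  have upper := (hq i₁ i hi₁ hi).2
  have t5 := D.tri (q i) (q i₁) (γ τ₁)
  have t6 : D.d (q i) (q i₁) = D.d (q i₁) (q i) := D.d_comm _ _
  have t7 : (D.d (q i) (γ τ₁) : ℝ) ≤ D.d (q i₁) (q i) + D.d (q i₁) (γ τ₁) := by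
    rw [← t6]; exact_mod_cast t5
  unfold gauge
  nlinarith

theorem qg_reverse {lam eps : ℝ} {n : ℕ} {q : ℕ → G} (hq : IsQuasiGeod D.d lam eps n q) :
    IsQuasiGeod D.d lam eps n (fun i => q (n - i)) := by
  intro i j hij hj
  have := hq (n - j) (n - i) (by omega) (by omega)
  have e : D.d (q (n - i)) (q (n - j)) = D.d (q (n - j)) (q (n - i)) := D.d_comm _ _
  simp only
  rw [e]
  rw [Nat.cast_sub (by omega : i ≤ n), Nat.cast_sub hj] at this
  constructor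
  · have h1 := this.1
    rw [show ((n:ℝ) - i - (n - j)) = (j:ℝ) - i by ring] at h1
    exact h1
  · have h1 := this.2
    rw [show ((n:ℝ) - i - (n - j)) = (j:ℝ) - i by ring] at h1
    exact h1

theorem morse_seg {m E : ℕ} {γ : ℕ → G} (hγ : IsGeod D.S m γ)
    (hgap : ∀ s, s + E ≤ m → ∃ t, s ≤ t ∧ t < s + E ∧ γ (t+1) = γ t * D.c) :
    IsMorseSet D.d (gauge E) (γ '' Iic m) := by
  rintro lam eps hlam heps n q hq ⟨s0, hs0, hq0⟩ ⟨t0, ht0, hqn⟩ i hi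
  rcases le_total s0 t0 with hst | hst
  · obtain ⟨k, hk, h⟩ := D.morse_aux hγ hgap hlam heps hq hst ht0 hq0.symm hqn.symm hi
    exact ⟨γ k, ⟨k, hk, rfl⟩, h⟩
  · obtain ⟨k, hk, h⟩ := D.morse_aux (i := n - i) hγ hgap hlam heps (D.qg_reverse hq) hst hs0
      (by simpa using hqn.symm) (by simpa using hq0.symm) (by omega)
    simp only [Nat.sub_sub_self hi] at h
    exact ⟨γ k, ⟨k, hk, rfl⟩, h⟩

theorem morse_ray {E : ℕ} {γ : ℕ → G} (hγ : ∀ m, IsGeod D.S m γ)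
    (hgap : ∀ s, ∃ t, s ≤ t ∧ t < s + E ∧ γ (t+1) = γ t * D.c) :
    IsMorseSet D.d (gauge E) (range γ) := by
  rintro lam eps hlam heps n q hq ⟨s0, hq0⟩ ⟨t0, hqn⟩ i hi
  obtain ⟨a, ⟨k, _, rfl⟩, h⟩ := D.morse_seg (m := max s0 t0) (hγ _) (fun s _ => hgap s) lam eps
    hlam heps n q hq ⟨s0, mem_Iic.mpr (le_max_left _ _), hq0⟩
    ⟨t0, mem_Iic.mpr (le_max_right _ _), hqn⟩ i hi
  exact ⟨γ k, ⟨k, rfl⟩, h⟩

/-! ### `ℤ²` -/

theorem nrm_mul_le (l l' : Multiplicative (ℤ × ℤ)) : nrm (l * l') ≤ nrm l + nrm l' := by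
  unfold nrm
  simp only [toAdd_mul, Prod.fst_add, Prod.snd_add]
  omega

theorem nrm_inv (l : Multiplicative (ℤ × ℤ)) : nrm l⁻¹ = nrm l := by
  unfold nrm
  simp

theorem nrm_φ_le (g : G) : nrm (D.φ g) ≤ wordLen D.S g := by
  obtain ⟨l, hl, hs, rfl⟩ := exists_word D.gen g
  rw [← hl]
  clear hl
  induction l with
  | nil => simp [nrm]
  | cons s l ih =>
    rw [List.prod_cons, map_mul, List.length_cons]
    have h1 := ih (fun t ht => hs t (List.mem_cons_of_mem _ ht))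
    have h2 : nrm (D.φ s) ≤ 1 := by
      rcases hs s (by simp) with h | h
      · exact D.φ_S s h
      · have := D.φ_S _ h
        rwa [map_inv, nrm_inv] at this
    have := nrm_mul_le (D.φ s) (D.φ l.prod)
    omega

theorem wordLen_zpow_le {s : G} (hs : s ∈ D.S) (m : ℤ) : wordLen D.S (s ^ m) ≤ m.natAbs := by
  have h1 : ∀ n : ℕ, wordLen D.S (s ^ n) ≤ n := by
    intro n
    induction n with
    | zero => simp [wordLen_one]
    | succ n ih =>
      rw [pow_succ]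
      have := wordLen_mul_le D.gen (s ^ n) s
      have h2 := wordLen_le_one (S := D.S) (s := s) (Or.inl hs)
      omega
  rcases Int.natAbs_eq m with h | h
  · have := h1 m.natAbs
    rwa [← zpow_natCast, ← h] at this
  · have := h1 m.natAbs
    rwa [← wordLen_inv D.gen, ← zpow_natCast, ← zpow_neg, ← h] at this

theorem wordLen_j (l : Multiplicative (ℤ × ℤ)) : wordLen D.S (D.j l) = nrm l := by
  apply le_antisymm
  · have h1 : l = (Multiplicative.ofAdd ((1:ℤ), (0:ℤ))) ^ (Multiplicative.toAdd l).1 *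
        (Multiplicative.ofAdd ((0:ℤ), (1:ℤ))) ^ (Multiplicative.toAdd l).2 := by
      rw [← ofAdd_zsmul, ← ofAdd_zsmul, ← ofAdd_add]
      apply Multiplicative.toAdd.injective
      rw [toAdd_ofAdd]
      ext <;> simp
    conv_lhs => rw [h1]
    rw [map_mul, map_zpow, map_zpow]
    refine (wordLen_mul_le D.gen _ _).trans ?_
    unfold nrm
    exact add_le_add (D.wordLen_zpow_le D.j_S1 _) (D.wordLen_zpow_le D.j_S2 _)
  · have := D.nrm_φ_le (D.j l)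
    rwa [D.φ_j] at this

theorem d_j (u : G) (l l' : Multiplicative (ℤ × ℤ)) :
    D.d (u * D.j l) (u * D.j l') = nrm (l⁻¹ * l') := by
  change wordDist _ _ _ = _
  rw [wordDist_mul_left]
  unfold wordDist
  rw [← map_inv, ← map_mul, D.wordLen_j]

theorem exists_chart (u : G) (l : Multiplicative (ℤ × ℤ)) : ∃ (ψ : ℤ → ℤ → G) (a b : ℕ),
    b ≤ a ∧ a + b = nrm l ∧ ψ 0 0 = u ∧ ψ a b = u * D.j l ∧
    (∀ x y x' y', D.d (ψ x y) (ψ x' y') = (x - x').natAbs + (y - y').natAbs) ∧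
    ∀ x y, ∃ l', ψ x y = u * D.j l' := by
  obtain ⟨m, hm⟩ : ∃ m, m = (Multiplicative.toAdd l).1 := ⟨_, rfl⟩
  obtain ⟨n, hn⟩ : ∃ n, n = (Multiplicative.toAdd l).2 := ⟨_, rfl⟩
  have hl : l = Multiplicative.ofAdd (m, n) := by rw [hm, hn]; rfl
  obtain ⟨σ, hσ, hσm⟩ : ∃ σ : ℤ, (σ = 1 ∨ σ = -1) ∧ σ * m.natAbs = m := by
    rcases Int.natAbs_eq m with h | h
    · exact ⟨1, Or.inl rfl, by omega⟩
    · exact ⟨-1, Or.inr rfl, by omega⟩
  obtain ⟨ρ, hρ, hρn⟩ : ∃ σ : ℤ, (σ = 1 ∨ σ = -1) ∧ σ * n.natAbs = n := by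
    rcases Int.natAbs_eq n with h | h
    · exact ⟨1, Or.inl rfl, by omega⟩
    · exact ⟨-1, Or.inr rfl, by omega⟩
  by_cases hmn : n.natAbs ≤ m.natAbs
  · refine ⟨fun x y => u * D.j (Multiplicative.ofAdd (σ * x, ρ * y)), m.natAbs, n.natAbs, hmn,
      ?_, ?_, ?_, ?_, fun x y => ⟨_, rfl⟩⟩
    · unfold nrm; rw [← hm, ← hn]
    · simp only [mul_zero]
      have : (Multiplicative.ofAdd ((0:ℤ), (0:ℤ))) = 1 := rfl
      rw [this, map_one, mul_one]
    · simp only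
      rw [hσm, hρn, hl]
    · intro x y x' y'
      rw [D.d_j]
      unfold nrm
      rw [← ofAdd_neg, ← ofAdd_add, toAdd_ofAdd]
      simp only [Prod.neg_mk, Prod.mk_add_mk]
      rcases hσ with rfl | rfl <;> rcases hρ with rfl | rfl <;> omega
  · refine ⟨fun x y => u * D.j (Multiplicative.ofAdd (σ * y, ρ * x)), n.natAbs, m.natAbs,
      by omega, ?_, ?_, ?_, ?_, fun x y => ⟨_, rfl⟩⟩
    · unfold nrm; rw [← hm, ← hn]; ring
    · simp only [mul_zero]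
      have : (Multiplicative.ofAdd ((0:ℤ), (0:ℤ))) = 1 := rfl
      rw [this, map_one, mul_one]
    · simp only
      rw [hσm, hρn, hl]
    · intro x y x' y'
      rw [D.d_j]
      unfold nrm
      rw [← ofAdd_neg, ← ofAdd_add, toAdd_ofAdd]
      simp only [Prod.neg_mk, Prod.mk_add_mk]
      rcases hσ with rfl | rfl <;> rcases hρ with rfl | rfl <;> omega

theorem detour {ψ : ℤ → ℤ → G}
    (hψ : ∀ x y x' y', D.d (ψ x y) (ψ x' y') = (x - x').natAbs + (y - y').natAbs) {a b R : ℕ}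
    (hab : b ≤ a) (hR : R ≤ a) : ∃ (n : ℕ) (q : ℕ → G), IsQuasiGeod D.d 4 0 n q ∧
      q 0 = ψ 0 0 ∧ q n = ψ a b ∧ (∃ i ≤ n, q i = ψ 0 (-R)) ∧ ∀ i, ∃ x y, q i = ψ x y := by
  set fx : ℕ → ℤ := fun i => if i ≤ R then 0 else if i ≤ R + a then (i:ℤ) - R else a with hfx
  set fy : ℕ → ℤ := fun i => if i ≤ R then -(i:ℤ) else if i ≤ R + a then -(R:ℤ)
    else (i:ℤ) - a - 2 * R with hfy
  refine ⟨2 * R + a + b, fun i => ψ (fx i) (fy i), ?_, ?_, ?_, ⟨R, by omega, ?_⟩,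
    fun i => ⟨_, _, rfl⟩⟩
  · intro i j hij hj
    rw [hψ]
    have h1 : (fx i - fx j).natAbs + (fy i - fy j).natAbs ≤ j - i ∧
        j - i ≤ 4 * ((fx i - fx j).natAbs + (fy i - fy j).natAbs) := by
      simp only [hfx, hfy]
      split_ifs <;> constructor <;> omega
    have h2 : (((fx i - fx j).natAbs + (fy i - fy j).natAbs : ℕ) : ℝ) ≤ (j:ℝ) - i := by
      rw [← Nat.cast_sub hij]; exact_mod_cast h1.1
    have h3 : (j:ℝ) - i ≤ 4 * (((fx i - fx j).natAbs + (fy i - fy j).natAbs : ℕ) : ℝ) := by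
      rw [← Nat.cast_sub hij]; exact_mod_cast h1.2
    have h4 : (0:ℝ) ≤ (j:ℝ) - i := by
      rw [← Nat.cast_sub hij]; positivity
    constructor
    · linarith
    · linarith
  · simp [hfx, hfy]
  · simp only [hfx, hfy]
    by_cases h1 : 2 * R + a + b ≤ R
    · have : R = 0 := by omega
      have : a = 0 := by omega
      have : b = 0 := by omega
      subst_vars
      simp
    · rw [if_neg h1, if_neg h1]
      by_cases h2 : 2 * R + a + b ≤ R + a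
      · have e1 : R = 0 := by omega
        have e2 : b = 0 := by omega
        rw [if_pos h2, if_pos h2, e1, e2]
        simp
      · rw [if_neg h2, if_neg h2]
        congr 1
        push_cast; ring
  · simp [hfx, hfy]

/-- Blocks of Morse geodesics are short. -/
theorem block_bound {N : ℝ → ℝ → ℝ} {A : Set G} {γ : ℕ → G} {s t : ℕ} (hst : s ≤ t)
    (hA : ∀ q : ℕ → G, ∀ n, IsQuasiGeod D.d 4 0 n q → q 0 = γ s → q n = γ t →
      (∀ i, ∃ l, q i = γ s * D.j l) → ∀ i ≤ n, ∃ a ∈ A, (D.d (q i) a : ℝ) ≤ N 4 0)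
    (hAγ : ∀ a ∈ A, ∃ τ, a = γ τ ∧ IsGeod D.S (max τ t) γ)
    (hstart : s = 0 ∨ γ s = γ (s - 1) * D.c) (hend : ∃ l, γ t = γ s * D.j l)
    (hgeo : IsGeod D.S t γ) : t - s ≤ blockBound N := by
  obtain ⟨l, hl⟩ := hend
  obtain ⟨ψ, a, b, hab, hnrm, h00, hψab, hψ, hψj⟩ := D.exists_chart (γ s) l
  have hM : t - s = a + b := by
    have h1 := hgeo s t hst le_rfl
    rw [hl] at h1
    unfold wordDist at h1
    rw [inv_mul_cancel_left, D.wordLen_j] at h1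
    omega
  by_contra hgt
  unfold blockBound at hgt
  set ν := ⌈N 4 0⌉₊ with hν
  set R := ν + 1 with hR
  obtain ⟨n, q, hq, hq0, hqn, ⟨i, hi, hqi⟩, hqψ⟩ := D.detour hψ (R := R) hab (by omega)
  obtain ⟨x, hx, hd⟩ := hA q n hq (by rw [hq0, h00]) (by rw [hqn, hψab, hl]) (by
    intro i
    obtain ⟨x, y, hxy⟩ := hqψ i
    obtain ⟨l', hl'⟩ := hψj x y
    exact ⟨l', by rw [hxy, hl']⟩) i hi
  obtain ⟨τ, rfl, hτgeo⟩ := hAγ x hx
  rw [hqi] at hd
  have hd' : D.d (ψ 0 (-R)) (γ τ) ≤ ν := by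
    have : (D.d (ψ 0 (-R)) (γ τ) : ℝ) ≤ ν := hd.trans (Nat.le_ceil _)
    exact_mod_cast this
  have e1 : D.d (ψ 0 (-R)) (γ s) = R := by
    rw [← h00, hψ]; simp
  have e2 : D.d (ψ 0 (-R)) (γ t) = a + (b + R) := by
    rw [hl, ← hψab, hψ]; omega
  rcases lt_or_ge τ s with h1 | h1
  · -- separated by the edge at `s`
    rcases hstart with h0 | h0
    · omega
    · have hc : γ ((s-1)+1) = γ (s-1) * D.c := by
        rw [Nat.sub_add_cancel (by omega)]; exact h0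
      have hne := D.side_ne (m := t) hgeo hc (s := τ) (u := s) (by omega) (by omega) hst
      have hK : D.side (γ (s-1)) (ψ 0 (-R)) = D.side (γ (s-1)) (γ s) := by
        obtain ⟨l', hl'⟩ := hψj 0 (-R)
        rw [hl']
        exact D.side_K _ _ _ (D.j_K l')
      rw [← hK] at hne
      have := (D.dist_le_of_side hne.symm).2
      rw [← h0] at this
      omega
  · rcases le_or_gt τ t with h2 | h2
    · have g1 : D.d (γ s) (γ τ) = τ - s := hτgeo s τ h1 (le_max_left _ _)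
      have g2 : D.d (γ τ) (γ t) = t - τ := hτgeo τ t h2 (le_max_right _ _)
      have t1 := D.tri (ψ 0 (-R)) (γ τ) (γ t)
      have t2 := D.tri (ψ 0 (-R)) (γ τ) (γ s)
      have t3 : D.d (γ τ) (γ s) = D.d (γ s) (γ τ) := D.d_comm _ _
      omega
    · have g1 : D.d (γ s) (γ τ) = τ - s := hτgeo s τ h1 (le_max_left _ _)
      have t1 := D.tri (γ s) (ψ 0 (-R)) (γ τ)
      have t3 : D.d (γ s) (ψ 0 (-R)) = D.d (ψ 0 (-R)) (γ s) := D.d_comm _ _
      omega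

end TreeData

end Pool.Agent.Lib.MP_1d7d98_al
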