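import Pool.Agent.Lib.MP_1d7d98_al.Defs

/-!
Abstract tree-like data on a group: separating edges, a retraction, a rank two free abelian
subgroup. Separation lemmas and malnormality.
-/

namespace Pool.Agent.Lib.MP_1d7d98_al

open Set Filter

/-- `l^1` norm on `ℤ × ℤ`. -/
def nrm (l : Multiplicative (ℤ × ℤ)) : ℕ := (Multiplicative.toAdd l).1.natAbs + (Multiplicative.toAdd l).2.natAbs

/-- Data for the construction. -/
structure TreeData (G : Type*) [Group G] where
  S : Set G
  c : G
  K : Subgroup G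
  j : Multiplicative (ℤ × ℤ) →* G
  r : G →* G
  φ : G →* Multiplicative (ℤ × ℤ)
  side : G → G → Bool
  gen : Subgroup.closure S = ⊤
  c_mem : c ∈ S
  c_sq : c * c = 1
  c_ne : c ≠ 1
  S_sub : ∀ s ∈ S, s ∈ K ∨ s = c
  side_K : ∀ x g k, k ∈ K → side x (g * k) = side x g
  side_c_ne : ∀ x g, x ≠ g → x ≠ g * c → side x (g * c) = side x g
  side_c_eq : ∀ x g, (x = g ∨ x = g * c) → side x (g * c) = !(side x g)
  side_trans : ∀ h x g g', side (h * x) (h * g) = side (h * x) (h * g') ↔ side x g = side x g'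
  r_idem : ∀ g, r (r g) = r g
  r_c : r c = c
  r_S : ∀ s ∈ S, r s ∈ S ∨ r s = 1
  r_K : ∀ k ∈ K, r k ∈ K
  j_K : ∀ l, j l ∈ K
  r_j : ∀ l, r (j l) = j l
  K_fix : ∀ k ∈ K, r k = k → k ∈ j.range
  j_S1 : j (Multiplicative.ofAdd (1, 0)) ∈ S
  j_S2 : j (Multiplicative.ofAdd (0, 1)) ∈ S
  φ_j : ∀ l, φ (j l) = l
  φ_S : ∀ s ∈ S, nrm (φ s) ≤ 1
  mal : ∀ k ∈ K, k ∉ j.range → ∀ l, k⁻¹ * j l * k ∈ j.range → l = 1

namespace TreeData

variable {G : Type*} [Group G] (D : TreeData G)

/-- the subgroup -/
def H : Subgroup G := D.r.range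

theorem mem_H_iff {g : G} : g ∈ D.H ↔ D.r g = g := by
  constructor
  · rintro ⟨x, rfl⟩
    exact D.r_idem x
  · intro h
    exact ⟨g, h⟩

theorem r_mem (g : G) : D.r g ∈ D.H := ⟨g, rfl⟩

theorem c_mem_H : D.c ∈ D.H := D.mem_H_iff.mpr D.r_c

theorem j_mem_H (l : Multiplicative (ℤ × ℤ)) : D.j l ∈ D.H := D.mem_H_iff.mpr (D.r_j l)

theorem mem_j_of {k : G} (hk : k ∈ D.K) (hH : k ∈ D.H) : k ∈ D.j.range :=
  D.K_fix k hk (D.mem_H_iff.mp hH)

theorem c_inv : D.c⁻¹ = D.c := by
  rw [inv_eq_iff_mul_eq_one]; exact D.c_sq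

theorem mul_c_c (g : G) : g * D.c * D.c = g := by
  rw [mul_assoc, D.c_sq, mul_one]

/-- distance -/
noncomputable abbrev d (g h : G) : ℕ := wordDist D.S g h

theorem tri (g h k : G) : D.d g k ≤ D.d g h + D.d h k := wordDist_triangle D.gen g h k

theorem d_comm (g h : G) : D.d g h = D.d h g := wordDist_comm D.gen g h

theorem d_self (g : G) : D.d g g = 0 := wordDist_self D.S g

theorem step {g g' : G} (h : D.d g g' = 1) : g' = g * D.c ∨ g⁻¹ * g' ∈ D.K := by
  rcases letter_of_wordDist D.gen h with h1 | h1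
  · rcases D.S_sub _ h1 with h2 | h2
    · exact Or.inr h2
    · left; rw [← h2]; group
  · rcases D.S_sub _ h1 with h2 | h2
    · right; simpa using D.K.inv_mem h2
    · left
      have : g⁻¹ * g' = D.c := by rw [← D.c_inv, ← h2]; simp
      rw [← this]; group

theorem side_of_K {x g g' : G} (h : g⁻¹ * g' ∈ D.K) : D.side x g = D.side x g' := by
  have := D.side_K x g _ h
  rw [← this]; congr 1; group

theorem geod_step {m : ℕ} {p : ℕ → G} (hp : IsGeod D.S m p) {i : ℕ} (hi : i < m) :
    p (i+1) = p i * D.c ∨ (p i)⁻¹ * p (i+1) ∈ D.K := by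
  apply D.step
  have := hp i (i+1) (Nat.le_succ i) hi
  simpa using this

theorem geod_inj {m : ℕ} {p : ℕ → G} (hp : IsGeod D.S m p) {i j : ℕ} (hi : i ≤ m) (hj : j ≤ m)
    (h : p i = p j) : i = j := by
  rcases le_total i j with hij | hij
  · have := hp i j hij hj
    rw [h, wordDist_self] at this
    omega
  · have := hp j i hij hi
    rw [h, wordDist_self] at this
    omega

/-- A change of side along a step. -/
theorem side_change {x g g' : G} (h : g' = g * D.c ∨ g⁻¹ * g' ∈ D.K)
    (hne : D.side x g ≠ D.side x g') : g' = g * D.c ∧ (x = g ∨ x = g') := by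
  rcases h with h | h
  · refine ⟨h, ?_⟩
    by_contra hc
    push Not at hc
    rw [h] at hc hne
    exact hne (D.side_c_ne x g hc.1 hc.2).symm
  · exact absurd (D.side_of_K h) hne

/-- A geodesic crosses the edge of each of its `c`-steps exactly once. -/
theorem side_before {m : ℕ} {p : ℕ → G} (hp : IsGeod D.S m p) {t : ℕ} (ht : t < m)
    (hc : p (t+1) = p t * D.c) {s : ℕ} (hs : s ≤ t) : D.side (p t) (p s) = D.side (p t) (p t) := by
  have key : ∀ n, n ≤ t → D.side (p t) (p (t - n)) = D.side (p t) (p t) := by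
    intro n
    induction n with
    | zero => intro _; rfl
    | succ n ih =>
      intro hn
      rw [← ih (by omega)]
      by_contra hne
      have e : t - n = (t - (n+1)) + 1 := by omega
      rw [e] at hne
      obtain ⟨h1, h2⟩ := D.side_change (D.geod_step hp (by omega)) hne
      rcases h2 with h2 | h2
      · have := D.geod_inj hp (by omega) (by omega) h2
        omega
      · have h3 := D.geod_inj hp (by omega) (by omega) h2
        rw [← h2] at h1
        have h4 : p (t+1) = p (t - (n+1)) := by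
          rw [hc, h1, D.mul_c_c]
        have := D.geod_inj hp (by omega) (by omega) h4
        omega
  have := key (t - s) (by omega)
  rwa [Nat.sub_sub_self hs] at this

theorem side_after {m : ℕ} {p : ℕ → G} (hp : IsGeod D.S m p) {t : ℕ} {s : ℕ}
    (hs : t + 1 ≤ s) (hsm : s ≤ m) : D.side (p t) (p s) = D.side (p t) (p (t+1)) := by
  induction s, hs using Nat.le_induction with
  | base => rfl
  | succ s hs ih =>
    rw [← ih (by omega)]
    by_contra hne
    obtain ⟨h1, h2⟩ := D.side_change (D.geod_step hp (by omega)) (Ne.symm hne)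
    rcases h2 with h2 | h2
    · have := D.geod_inj hp (by omega) (by omega) h2
      omega
    · have := D.geod_inj hp (by omega) (by omega) h2
      omega

theorem side_cross {g g' : G} (hc : g' = g * D.c) : D.side g g' = !(D.side g g) := by
  rw [hc]; exact D.side_c_eq g g (Or.inl rfl)

theorem side_ne {m : ℕ} {p : ℕ → G} (hp : IsGeod D.S m p) {t : ℕ}
    (hc : p (t+1) = p t * D.c) {s u : ℕ} (hs : s ≤ t) (hu : t + 1 ≤ u) (hum : u ≤ m) :
    D.side (p t) (p s) ≠ D.side (p t) (p u) := by
  rw [D.side_before hp (by omega) hc hs, D.side_after hp hu hum, D.side_cross hc]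
  simp

theorem exists_change {x : G} {p : ℕ → G} {i k : ℕ} (hik : i ≤ k)
    (h : D.side x (p i) ≠ D.side x (p k)) :
    ∃ l, i ≤ l ∧ l < k ∧ D.side x (p l) ≠ D.side x (p (l+1)) := by
  by_contra hc
  push Not at hc
  apply h
  induction k, hik using Nat.le_induction with
  | base => rfl
  | succ k hik ih =>
    by_cases h2 : D.side x (p i) = D.side x (p k)
    · rw [h2]; exact hc k hik (by omega)
    · exact absurd (ih h2 (fun l h3 h4 => hc l h3 (by omega))) h2

/-- Separation. -/
theorem dist_le_of_side {x g g' : G} (h : D.side x g ≠ D.side x g') :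
    D.d g x ≤ D.d g g' ∧ D.d g (x * D.c) ≤ D.d g g' := by
  obtain ⟨p, h0, h1, hp⟩ := exists_geod D.gen g g'
  rw [← h0, ← h1] at h
  obtain ⟨l, _, hl, hne⟩ := D.exists_change (Nat.zero_le _) h
  obtain ⟨hc, h3⟩ := D.side_change (D.geod_step hp hl) hne
  have e1 := hp 0 l (Nat.zero_le _) hl.le
  have e2 := hp 0 (l+1) (Nat.zero_le _) hl
  rw [h0] at e1 e2
  rcases h3 with h3 | h3
  · rw [h3, ← hc]
    constructor
    · change wordDist D.S g (p l) ≤ wordDist D.S g g'
      omega
    · change wordDist D.S g (p (l+1)) ≤ wordDist D.S g g'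
      omega
  · have h4 : x * D.c = p l := by rw [h3, hc, D.mul_c_c]
    rw [h4, h3]
    constructor
    · change wordDist D.S g (p (l+1)) ≤ wordDist D.S g g'
      omega
    · change wordDist D.S g (p l) ≤ wordDist D.S g g'
      omega

/-- Edges separating points of `H` are in `H`. -/
theorem mem_H_of_side {x h h' : G} (hh : h ∈ D.H) (hh' : h' ∈ D.H)
    (hne : D.side x h ≠ D.side x h') : x ∈ D.H := by
  obtain ⟨p, h0, h1, hp⟩ := exists_geod D.gen h h'
  have e0 : h = D.r (p 0) := by rw [h0]; exact (D.mem_H_iff.mp hh).symm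
  have e1 : h' = D.r (p (wordDist D.S h h')) := by
    rw [h1]; exact (D.mem_H_iff.mp hh').symm
  rw [e0, e1] at hne
  obtain ⟨l, _, hl, hne2⟩ := D.exists_change (p := fun i => D.r (p i)) (Nat.zero_le _) hne
  have hl' : l < wordDist D.S h h' := hl
  have hstep : D.r (p (l+1)) = D.r (p l) * D.c ∨ (D.r (p l))⁻¹ * D.r (p (l+1)) ∈ D.K := by
    rcases D.geod_step hp hl' with h2 | h2
    · left; rw [h2, map_mul, D.r_c]
    · right
      rw [← map_inv, ← map_mul]
      exact D.r_K _ h2
  obtain ⟨_, h3⟩ := D.side_change hstep hne2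
  rcases h3 with h3 | h3
  · rw [h3]; exact D.r_mem _
  · rw [h3]; exact D.r_mem _

/-- First `c`-step of an element outside `K`. -/
theorem first_c {g : G} (hg : g ∉ D.K) : ∃ k ∈ D.K, ∃ g', g = k * D.c * g' ∧
    wordLen D.S g' < wordLen D.S g ∧ D.side k 1 ≠ D.side k g := by
  obtain ⟨p, h0, h1, hp⟩ := exists_geod D.gen 1 g
  set m := wordDist D.S 1 g with hm
  have hex : ∃ t, t < m ∧ p (t+1) = p t * D.c := by
    by_contra hc
    push Not at hc
    apply hg
    have : ∀ t, t ≤ m → p t ∈ D.K := by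
      intro t
      induction t with
      | zero => intro _; rw [h0]; exact D.K.one_mem
      | succ t ih =>
        intro ht
        rcases D.geod_step hp (i := t) (by omega) with h2 | h2
        · exact absurd h2 (hc t (by omega))
        · have := D.K.mul_mem (ih (by omega)) h2
          simpa using this
    have := this m le_rfl
    rwa [h1] at this
  classical
  obtain ⟨ht, hct⟩ := Nat.find_spec hex
  set t := Nat.find hex with htdef
  have hK : ∀ s, s ≤ t → p s ∈ D.K := by
    intro s
    induction s with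
    | zero => intro _; rw [h0]; exact D.K.one_mem
    | succ s ih =>
      intro hs
      have hmin := Nat.find_min hex (m := s) (by omega)
      rcases D.geod_step hp (i := s) (by omega) with h2 | h2
      · exact absurd ⟨by omega, h2⟩ hmin
      · have := D.K.mul_mem (ih (by omega)) h2
        simpa using this
  refine ⟨p t, hK t le_rfl, (p (t+1))⁻¹ * g, ?_, ?_, ?_⟩
  · rw [← hct]; group
  · have h2 := hp (t+1) m ht le_rfl
    rw [h1] at h2
    have h3 : wordLen D.S g = m := by
      rw [hm]; unfold wordDist; simp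
    unfold wordDist at h2
    rw [h2, h3]; omega
  · have := D.side_ne hp hct (Nat.zero_le _) ht le_rfl
    rwa [h0, h1] at this

theorem mem_K_of_no_side {g : G} (h : ∀ x, D.side x 1 = D.side x g) : g ∈ D.K := by
  by_contra hg
  obtain ⟨k, _, _, _, _, hne⟩ := D.first_c hg
  exact hne (h k)

/-- If all separating edges of `1, g` lie in `H ∪ gH` then `g ∈ HKH`. -/
theorem mem_HKH : ∀ (n : ℕ) (g : G), wordLen D.S g ≤ n →
    (∀ x, D.side x 1 ≠ D.side x g → x ∈ D.H ∨ g⁻¹ * x ∈ D.H) →
    ∃ h₁ ∈ D.H, ∃ k ∈ D.K, ∃ h₂ ∈ D.H, g = h₁ * k * h₂ := by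
  intro n
  induction n with
  | zero =>
    intro g hg _
    have : g = 1 := eq_one_of_wordLen D.gen (by omega)
    exact ⟨1, D.H.one_mem, 1, D.K.one_mem, 1, D.H.one_mem, by simp [this]⟩
  | succ n ih =>
    intro g hg hsep
    by_cases hK : g ∈ D.K
    · exact ⟨1, D.H.one_mem, g, hK, 1, D.H.one_mem, by simp⟩
    · obtain ⟨k, hk, g', hgk, hlt, hne⟩ := D.first_c hK
      rcases hsep k hne with h1 | h1
      · have hkc : k * D.c ∈ D.H := D.H.mul_mem h1 D.c_mem_H
        obtain ⟨h₁, hh₁, k', hk', h₂, hh₂, he⟩ := ih g' (by omega) (by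
          intro x hx
          -- translate by `k c`
          have hx2 : D.side (k * D.c * x) (k * D.c) ≠ D.side (k * D.c * x) g := by
            intro hc
            apply hx
            have := (D.side_trans (k * D.c) x 1 g').mp (by rw [mul_one, ← hgk]; exact hc)
            exact this
          by_cases h3 : D.side (k * D.c * x) 1 = D.side (k * D.c * x) (k * D.c)
          · have h4 : D.side (k * D.c * x) 1 ≠ D.side (k * D.c * x) g := by rw [h3]; exact hx2
            rcases hsep _ h4 with h5 | h5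
            · left
              have := D.H.mul_mem (D.H.inv_mem hkc) h5
              simpa [mul_assoc] using this
            · right
              rw [hgk] at h5
              simpa [mul_assoc] using h5
          · left
            have h5 := D.mem_H_of_side D.H.one_mem hkc h3
            have := D.H.mul_mem (D.H.inv_mem hkc) h5
            simpa [mul_assoc] using this)
        refine ⟨k * D.c * h₁, D.H.mul_mem hkc hh₁, k', hk', h₂, hh₂, ?_⟩
        rw [hgk, he]; group
      · refine ⟨1, D.H.one_mem, k, hk, k⁻¹ * g, ?_, by group⟩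
        have := D.H.inv_mem h1
        simpa using this

theorem malnormal_K {k x : G} (hk : k ∈ D.K) (hkH : k ∉ D.H) (hx : x ∈ D.H)
    (hx' : k⁻¹ * x * k ∈ D.H) : x = 1 := by
  have hsep : ∀ y, D.side y 1 = D.side y x := by
    intro y
    by_contra hne
    have hy : y ∈ D.H := D.mem_H_of_side D.H.one_mem hx hne
    -- `x k = k x'`
    have h1 : D.side y (x * k) = D.side y x := D.side_K y x k hk
    have h2 : D.side y k = D.side y 1 := by
      have := D.side_K y 1 k hk
      rwa [one_mul] at this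
    have h3 : D.side y k ≠ D.side y (k * (k⁻¹ * x * k)) := by
      rw [show k * (k⁻¹ * x * k) = x * k by group, h1, h2]; exact hne
    have h4 : D.side (k⁻¹ * y) 1 ≠ D.side (k⁻¹ * y) (k⁻¹ * x * k) := by
      intro hc
      apply h3
      have := (D.side_trans k (k⁻¹ * y) 1 (k⁻¹ * x * k)).mpr hc
      simpa using this
    have h5 := D.mem_H_of_side D.H.one_mem hx' h4
    apply hkH
    have := D.H.mul_mem hy (D.H.inv_mem h5)
    simpa using this
  have hxK := D.mem_K_of_no_side hsep
  obtain ⟨l, rfl⟩ := D.mem_j_of hxK hx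
  have hx'K : k⁻¹ * D.j l * k ∈ D.K := D.K.mul_mem (D.K.mul_mem (D.K.inv_mem hk) hxK) hk
  have := D.mal k hk (fun hc => hkH (by obtain ⟨l', rfl⟩ := hc; exact D.j_mem_H l')) l
    (D.mem_j_of hx'K hx')
  rw [this, map_one]

/-- `H` is almost malnormal. -/
theorem almostMalnormal : AlmostMalnormal D.H := by
  intro g hg
  by_cases hA : ∀ x, D.side x 1 ≠ D.side x g → x ∈ D.H ∨ g⁻¹ * x ∈ D.H
  · obtain ⟨h₁, hh₁, k, hk, h₂, hh₂, rfl⟩ := D.mem_HKH _ g le_rfl hA
    have hkH : k ∉ D.H := fun hc => hg (D.H.mul_mem (D.H.mul_mem hh₁ hc) hh₂)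
    apply (Set.finite_singleton (1 : G)).subset
    rintro x ⟨hx, hx'⟩
    have h1 : h₁⁻¹ * x * h₁ ∈ D.H := D.H.mul_mem (D.H.mul_mem (D.H.inv_mem hh₁) hx) hh₁
    have h2 : k⁻¹ * (h₁⁻¹ * x * h₁) * k ∈ D.H := by
      have := D.H.mul_mem (D.H.mul_mem hh₂ hx') (D.H.inv_mem hh₂)
      convert! this using 1
      group
    have := D.malnormal_K hk hkH h1 h2
    rw [Set.mem_singleton_iff]
    have h3 : x = h₁ * (h₁⁻¹ * x * h₁) * h₁⁻¹ := by group
    rw [h3, this]; group
  · push Not at hA
    obtain ⟨z, hz, hzH, hzg⟩ := hA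
    -- the set of edges separating `1` and `g`
    have hfin : {y : G | D.side y 1 ≠ D.side y g}.Finite := by
      obtain ⟨p, h0, h1, hp⟩ := exists_geod D.gen 1 g
      apply ((Set.finite_Iic (wordDist D.S 1 g)).image p).subset
      intro y hy
      have hy' : D.side y (p 0) ≠ D.side y (p (wordDist D.S 1 g)) := by
        rw [h0, h1]; exact hy
      obtain ⟨l, _, hl, hne⟩ := D.exists_change (Nat.zero_le _) hy'
      obtain ⟨_, h3⟩ := D.side_change (D.geod_step hp hl) hne
      rcases h3 with h3 | h3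
      · exact ⟨l, hl.le, h3.symm⟩
      · exact ⟨l+1, hl, h3.symm⟩
    apply (hfin.image (fun y => z * y⁻¹)).subset
    rintro x ⟨hx, hx'⟩
    refine ⟨x⁻¹ * z, ?_, by simp⟩
    -- sides of `z`
    have e1 : D.side z 1 = D.side z x := by
      by_contra hc
      exact hzH (D.mem_H_of_side D.H.one_mem hx hc)
    have e2 : D.side z g = D.side z (x * g) := by
      by_contra hc
      apply hzg
      apply D.mem_H_of_side D.H.one_mem hx'
      intro hc2
      apply hc
      have := (D.side_trans g (g⁻¹ * z) 1 (g⁻¹ * x * g)).mpr hc2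
      simpa [mul_assoc] using this
    have e3 : D.side z x ≠ D.side z (x * g) := by rw [← e1, ← e2]; exact hz
    change D.side (x⁻¹ * z) 1 ≠ D.side (x⁻¹ * z) g
    intro hc
    apply e3
    have := (D.side_trans x (x⁻¹ * z) 1 g).mpr hc
    simpa using this

end TreeData

end Pool.Agent.Lib.MP_1d7d98_al
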