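import Mathlib

/-!
Word length and word metric with respect to a generating set.
-/

namespace Pool.Agent.Lib.MP_1d7d98_al

open Set

variable {G : Type*} [Group G]

/-- The word length of `g` with respect to `S`: the least length of a word in the letters
`s, s⁻¹` (`s ∈ S`) representing `g`. -/
noncomputable def wordLen (S : Set G) (g : G) : ℕ :=
  sInf {n | ∃ l : List G, l.length = n ∧ (∀ s ∈ l, s ∈ S ∨ s⁻¹ ∈ S) ∧ l.prod = g}

/-- The word metric with respect to `S`. -/
noncomputable def wordDist (S : Set G) (g h : G) : ℕ := wordLen S (g⁻¹ * h)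

theorem exists_list {S : Set G} (hS : Subgroup.closure S = ⊤) (g : G) :
    ∃ l : List G, (∀ s ∈ l, s ∈ S ∨ s⁻¹ ∈ S) ∧ l.prod = g := by
  have hg : g ∈ Subgroup.closure S := by rw [hS]; trivial
  induction hg using Subgroup.closure_induction_left with
  | one => exact ⟨[], by simp, by simp⟩
  | mul_left x hx y hy ih =>
    obtain ⟨l, hl, rfl⟩ := ih
    refine ⟨x :: l, ?_, by simp⟩
    intro s hs
    rcases List.mem_cons.mp hs with rfl | hs
    · exact Or.inl hx
    · exact hl s hs
  | inv_mul_cancel x hx y hy ih =>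
    obtain ⟨l, hl, rfl⟩ := ih
    refine ⟨x⁻¹ :: l, ?_, by simp⟩
    intro s hs
    rcases List.mem_cons.mp hs with rfl | hs
    · exact Or.inr (by simpa using hx)
    · exact hl s hs

theorem exists_word {S : Set G} (hS : Subgroup.closure S = ⊤) (g : G) :
    ∃ l : List G, l.length = wordLen S g ∧ (∀ s ∈ l, s ∈ S ∨ s⁻¹ ∈ S) ∧ l.prod = g := by
  have hne : {n | ∃ l : List G, l.length = n ∧ (∀ s ∈ l, s ∈ S ∨ s⁻¹ ∈ S) ∧ l.prod = g}.Nonempty := by
    obtain ⟨l, hl, hp⟩ := exists_list hS g
    exact ⟨l.length, l, rfl, hl, hp⟩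
  exact Nat.sInf_mem hne

theorem wordLen_le {S : Set G} (l : List G) (hl : ∀ s ∈ l, s ∈ S ∨ s⁻¹ ∈ S) :
    wordLen S l.prod ≤ l.length :=
  Nat.sInf_le ⟨l, rfl, hl, rfl⟩

theorem wordLen_one (S : Set G) : wordLen S (1 : G) = 0 := by
  have := wordLen_le (S := S) [] (by simp)
  simpa using this

theorem wordLen_le_one {S : Set G} {s : G} (hs : s ∈ S ∨ s⁻¹ ∈ S) : wordLen S s ≤ 1 := by
  have := wordLen_le (S := S) [s] (by simpa using hs)
  simpa using this

theorem eq_one_of_wordLen {S : Set G} (hS : Subgroup.closure S = ⊤) {g : G}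
    (h : wordLen S g = 0) : g = 1 := by
  obtain ⟨l, hl, _, hp⟩ := exists_word hS g
  rw [h, List.length_eq_zero_iff] at hl
  rw [hl] at hp
  simpa using hp.symm

theorem wordLen_mul_le {S : Set G} (hS : Subgroup.closure S = ⊤) (g h : G) :
    wordLen S (g * h) ≤ wordLen S g + wordLen S h := by
  obtain ⟨l, hl, hs, hp⟩ := exists_word hS g
  obtain ⟨l', hl', hs', hp'⟩ := exists_word hS h
  have := wordLen_le (S := S) (l ++ l') (by
    intro s hs1
    rcases List.mem_append.mp hs1 with h1 | h1
    · exact hs s h1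
    · exact hs' s h1)
  rw [List.prod_append, hp, hp', List.length_append, hl, hl'] at this
  exact this

theorem wordLen_inv_le {S : Set G} (hS : Subgroup.closure S = ⊤) (g : G) :
    wordLen S g⁻¹ ≤ wordLen S g := by
  obtain ⟨l, hl, hs, hp⟩ := exists_word hS g
  have := wordLen_le (S := S) (l.map (·⁻¹)).reverse (by
    intro s hs1
    rw [List.mem_reverse, List.mem_map] at hs1
    obtain ⟨t, ht, rfl⟩ := hs1
    rcases hs t ht with h1 | h1
    · right; simpa using h1
    · left; exact h1)
  rw [← List.prod_inv_reverse, hp] at this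
  simpa [hl] using this

theorem wordLen_inv {S : Set G} (hS : Subgroup.closure S = ⊤) (g : G) :
    wordLen S g⁻¹ = wordLen S g := by
  apply le_antisymm (wordLen_inv_le hS g)
  have := wordLen_inv_le hS g⁻¹
  simpa using this

theorem wordDist_self (S : Set G) (g : G) : wordDist S g g = 0 := by
  simp [wordDist, wordLen_one]

theorem wordDist_comm {S : Set G} (hS : Subgroup.closure S = ⊤) (g h : G) :
    wordDist S g h = wordDist S h g := by
  unfold wordDist
  rw [← wordLen_inv hS]
  simp

theorem wordDist_triangle {S : Set G} (hS : Subgroup.closure S = ⊤) (g h k : G) :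
    wordDist S g k ≤ wordDist S g h + wordDist S h k := by
  unfold wordDist
  have := wordLen_mul_le hS (g⁻¹ * h) (h⁻¹ * k)
  rwa [show g⁻¹ * h * (h⁻¹ * k) = g⁻¹ * k by group] at this

theorem wordDist_mul_left (S : Set G) (g h k : G) :
    wordDist S (g * h) (g * k) = wordDist S h k := by
  unfold wordDist
  congr 1; group

theorem eq_of_wordDist {S : Set G} (hS : Subgroup.closure S = ⊤) {g h : G}
    (hd : wordDist S g h = 0) : g = h := by
  have := eq_one_of_wordLen hS hd
  rw [inv_mul_eq_one] at this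
  exact this

/-- Points at distance one differ by a letter. -/
theorem letter_of_wordDist {S : Set G} (hS : Subgroup.closure S = ⊤) {g h : G}
    (hd : wordDist S g h = 1) : g⁻¹ * h ∈ S ∨ (g⁻¹ * h)⁻¹ ∈ S := by
  obtain ⟨l, hl, hs, hp⟩ := exists_word hS (g⁻¹ * h)
  have hl' : l.length = 1 := hl.trans hd
  obtain ⟨s, rfl⟩ := List.length_eq_one_iff.mp hl'
  have : s = g⁻¹ * h := by simpa using hp
  rw [← this]
  exact hs s (by simp)

/-- `p` is a geodesic on `[0, m]`. -/
def IsGeod (S : Set G) (m : ℕ) (p : ℕ → G) : Prop :=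
  ∀ i j, i ≤ j → j ≤ m → wordDist S (p i) (p j) = j - i

theorem exists_geod {S : Set G} (hS : Subgroup.closure S = ⊤) (g h : G) :
    ∃ p : ℕ → G, p 0 = g ∧ p (wordDist S g h) = h ∧ IsGeod S (wordDist S g h) p := by
  obtain ⟨l, hl, hs, hp⟩ := exists_word hS (g⁻¹ * h)
  have hl' : l.length = wordDist S g h := hl
  have hend : g * (l.take (wordDist S g h)).prod = h := by
    rw [← hl', List.take_length, hp]; group
  have hstart : g * (l.take 0).prod = g := by simp
  -- upper bound on distances
  have hub : ∀ i j, i ≤ j → wordDist S (g * (l.take i).prod) (g * (l.take j).prod) ≤ j - i := by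
    intro i j hij
    rw [wordDist_mul_left]
    unfold wordDist
    have h1 : l.take j = l.take i ++ (l.take j).drop i := by
      have h2 : l.take i = (l.take j).take i := by rw [List.take_take, min_eq_left hij]
      rw [h2, List.take_append_drop]
    have h3 : (l.take i).prod⁻¹ * (l.take j).prod = ((l.take j).drop i).prod := by
      conv_lhs => rw [h1, List.prod_append]
      rw [inv_mul_cancel_left]
    rw [h3]
    refine (wordLen_le _ ?_).trans ?_
    · intro s hs1
      exact hs s (List.mem_of_mem_take (List.mem_of_mem_drop hs1))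
    · rw [List.length_drop, List.length_take]; omega
  refine ⟨fun i => g * (l.take i).prod, hstart, hend, ?_⟩
  intro i j hij hjm
  apply le_antisymm (hub i j hij)
  have t1 := wordDist_triangle hS g (g * (l.take i).prod) h
  have t2 := wordDist_triangle hS (g * (l.take i).prod) (g * (l.take j).prod) h
  have u1 := hub 0 i (Nat.zero_le _)
  have u2 := hub j (wordDist S g h) hjm
  rw [hstart] at u1
  rw [hend] at u2
  omega

theorem exists_map_word {G' : Type*} [Group G'] {S : Set G} {S' : Set G'} (f : G →* G')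
    (hf : ∀ s ∈ S, (f s ∈ S' ∨ (f s)⁻¹ ∈ S') ∨ f s = 1) (l : List G)
    (hl : ∀ s ∈ l, s ∈ S ∨ s⁻¹ ∈ S) :
    ∃ l' : List G', l'.length ≤ l.length ∧ (∀ s ∈ l', s ∈ S' ∨ s⁻¹ ∈ S') ∧ l'.prod = f l.prod := by
  induction l with
  | nil => exact ⟨[], by simp, by simp, by simp⟩
  | cons s l ih =>
    obtain ⟨l', h1, h2, h3⟩ := ih (fun t ht => hl t (List.mem_cons_of_mem _ ht))
    have hs : (f s ∈ S' ∨ (f s)⁻¹ ∈ S') ∨ f s = 1 := by
      rcases hl s (by simp) with h | h
      · exact hf s h
      · rcases hf _ h with (h | h) | h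
        · left; right; simpa using h
        · left; left; simpa using h
        · right; simpa using h
    rcases hs with hs | hs
    · refine ⟨f s :: l', by simpa using h1, ?_, by simp [h3]⟩
      intro x hx
      rcases List.mem_cons.mp hx with rfl | hx
      · exact hs
      · exact h2 x hx
    · refine ⟨l', by simp; omega, h2, by simp [h3, hs]⟩

theorem wordLen_map_le {G' : Type*} [Group G'] {S : Set G} {S' : Set G'}
    (hS : Subgroup.closure S = ⊤) (f : G →* G')
    (hf : ∀ s ∈ S, (f s ∈ S' ∨ (f s)⁻¹ ∈ S') ∨ f s = 1) (g : G) :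
    wordLen S' (f g) ≤ wordLen S g := by
  obtain ⟨l, hl, hs, rfl⟩ := exists_word hS g
  obtain ⟨l', h1, h2, h3⟩ := exists_map_word f hf l hs
  rw [← h3, ← hl]
  exact (wordLen_le l' h2).trans h1

end Pool.Agent.Lib.MP_1d7d98_al
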